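import Pool.Agent.H21.L.R_seed8.TH941.Newform
import Pool.Agent.H21.L.R_seed8.W263.BSD.Curve

/-!
# Growth of the incomplete L-series from the partial sums (job RZ-B, helper699)
-/

set_option autoImplicit false

namespace Pool.Agent.TH942.RZ

namespace Growth

open MeasureTheory Filter Topology Asymptotics

/-! ### The Dirichlet series as a Mellin transform -/

/-- the summatory function -/
noncomputable def sf (c : ℕ → ℂ) (t : ℝ) : ℂ := ∑ k ∈ Finset.Icc 1 ⌊t⌋₊, c k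

lemma sf_zero {c : ℕ → ℂ} {t : ℝ} (ht : t < 1) : sf c t = 0 := by
  unfold sf
  have : ⌊t⌋₊ = 0 := Nat.floor_eq_zero.2 ht
  rw [this]
  simp

lemma sf_bound {c : ℕ → ℂ} {C : ℝ} (hC : 0 ≤ C)
    (h : ∀ M : ℕ, ‖∑ k ∈ Finset.Icc 1 M, c k‖ ≤ C * ((M : ℝ) + 1) * (1 + Real.log ((M : ℝ) + 1)))
    {δ : ℝ} (hδ : 0 < δ) {t : ℝ} (ht : 1 ≤ t) :
    ‖sf c t‖ ≤ 2 * C * (2 + 1 / δ) * t ^ (1 + δ) := by
  have ht0 : 0 < t := by linarith
  have hM : (⌊t⌋₊ : ℝ) ≤ t := Nat.floor_le ht0.le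
  have hM0 : (0 : ℝ) ≤ ⌊t⌋₊ := Nat.cast_nonneg _
  have h1 := h ⌊t⌋₊
  have hlog1 : Real.log ((⌊t⌋₊ : ℝ) + 1) ≤ 1 + Real.log t := by
    have h2 : Real.log ((⌊t⌋₊ : ℝ) + 1) ≤ Real.log (2 * t) :=
      Real.log_le_log (by positivity) (by linarith)
    rw [Real.log_mul (by norm_num) ht0.ne'] at h2
    have h3 := Real.log_two_lt_d9
    linarith
  have hlog2 : Real.log t ≤ t ^ δ / δ := Real.log_le_rpow_div ht0.le hδ
  have hone : 1 ≤ t ^ δ := Real.one_le_rpow ht hδ.le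
  have hlog0 : 0 ≤ Real.log ((⌊t⌋₊ : ℝ) + 1) := Real.log_nonneg (by linarith)
  have h4 : 1 + Real.log ((⌊t⌋₊ : ℝ) + 1) ≤ (2 + 1 / δ) * t ^ δ := by
    have e : (2 + 1 / δ) * t ^ δ = 2 * t ^ δ + t ^ δ / δ := by ring
    rw [e]
    linarith
  have h5 : C * ((⌊t⌋₊ : ℝ) + 1) ≤ C * (2 * t) := mul_le_mul_of_nonneg_left (by linarith) hC
  calc ‖sf c t‖ ≤ C * ((⌊t⌋₊ : ℝ) + 1) * (1 + Real.log ((⌊t⌋₊ : ℝ) + 1)) := h1
    _ ≤ C * (2 * t) * ((2 + 1 / δ) * t ^ δ) :=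
        mul_le_mul h5 h4 (by linarith) (by positivity)
    _ = 2 * C * (2 + 1 / δ) * t ^ (1 + δ) := by
        rw [Real.rpow_add ht0, Real.rpow_one]
        ring

/-- the continuation of the Dirichlet series -/
noncomputable def GZ (c : ℕ → ℂ) (z : ℂ) : ℂ := z * mellin (sf c) (-z)

lemma sf_locInt (c : ℕ → ℂ) : LocallyIntegrableOn (sf c) (Set.Ioi 0) := by
  have h1 : LocallyIntegrableOn (fun _ : ℝ => (1 : ℂ)) (Set.Ici (0 : ℝ)) :=
    (locallyIntegrable_const (1 : ℂ)).locallyIntegrableOn _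
  have h2 := locallyIntegrableOn_mul_sum_Icc c (m := 1) le_rfl h1
  have h3 : (fun t : ℝ => (1 : ℂ) * ∑ k ∈ Finset.Icc 1 ⌊t⌋₊, c k) = sf c := by
    funext t
    rw [one_mul]
    rfl
  rw [h3] at h2
  exact h2.mono_set Set.Ioi_subset_Ici_self

lemma GZ_differentiable {c : ℕ → ℂ} {C : ℝ} (hC : 0 ≤ C)
    (h : ∀ M : ℕ, ‖∑ k ∈ Finset.Icc 1 M, c k‖ ≤ C * ((M : ℝ) + 1) * (1 + Real.log ((M : ℝ) + 1)))
    {z : ℂ} (hz : 1 < z.re) : DifferentiableAt ℂ (GZ c) z := by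
  have hδ : 0 < (z.re - 1) / 2 := by linarith
  have h1 : DifferentiableAt ℂ (mellin (sf c)) (-z) := by
    refine mellin_differentiableAt_of_isBigO_rpow (a := -(1 + (z.re - 1) / 2)) (b := -z.re - 1)
      (sf_locInt c) ?_ ?_ ?_ ?_
    · refine IsBigO.of_bound (2 * C * (2 + 1 / ((z.re - 1) / 2))) ?_
      filter_upwards [eventually_ge_atTop 1] with t ht
      rw [neg_neg, Real.norm_of_nonneg (by positivity)]
      exact sf_bound hC h hδ ht
    · rw [Complex.neg_re]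
      linarith
    · refine IsBigO.of_bound 1 ?_
      have : Set.Ioo (0 : ℝ) 1 ∈ 𝓝[>] (0 : ℝ) := Ioo_mem_nhdsGT one_pos
      filter_upwards [this] with t ht
      rw [sf_zero ht.2, norm_zero]
      positivity
    · rw [Complex.neg_re]
      linarith
  have h2 : DifferentiableAt ℂ (mellin (sf c) ∘ fun w : ℂ => -w) z :=
    DifferentiableAt.comp (g := mellin (sf c)) z h1 (by fun_prop)
  exact differentiableAt_id.mul h2

lemma mellin_eq (c : ℕ → ℂ) (z : ℂ) :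
    mellin (sf c) (-z) = ∫ t in Set.Ioi (1 : ℝ), sf c t * (t : ℂ) ^ (-(z + 1)) := by
  unfold mellin
  have h1 : ∫ t : ℝ in Set.Ioi 0, (t : ℂ) ^ (-z - 1) • sf c t =
      ∫ t : ℝ in Set.Ici 1, (t : ℂ) ^ (-z - 1) • sf c t := by
    refine setIntegral_eq_of_subset_of_forall_sdiff_eq_zero measurableSet_Ioi ?_ ?_
    · intro t ht
      have ht' : (1 : ℝ) ≤ t := ht
      exact lt_of_lt_of_le one_pos ht'
    · rintro t ⟨-, ht2⟩
      rw [Set.mem_Ici, not_le] at ht2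
      rw [sf_zero ht2, smul_zero]
  rw [h1, integral_Ici_eq_integral_Ioi]
  refine setIntegral_congr_fun measurableSet_Ioi fun t _ => ?_
  simp only [smul_eq_mul]
  rw [mul_comm, neg_add']

lemma GZ_bound {c : ℕ → ℂ} {C : ℝ} (hC : 0 ≤ C)
    (h : ∀ M : ℕ, ‖∑ k ∈ Finset.Icc 1 M, c k‖ ≤ C * ((M : ℝ) + 1) * (1 + Real.log ((M : ℝ) + 1)))
    {z : ℂ} (hz : 1 < z.re) :
    ‖GZ c z‖ ≤ 8 * C * ‖z‖ * (1 + 1 / (z.re - 1)) ^ 2 := by
  obtain ⟨δ, hδe⟩ : ∃ δ : ℝ, δ = (z.re - 1) / 2 := ⟨_, rfl⟩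
  have hδ : 0 < δ := by rw [hδe]; linarith
  have hint : ‖mellin (sf c) (-z)‖ ≤ 2 * C * (2 + 1 / δ) / δ := by
    rw [mellin_eq]
    have hb : ∫ t in Set.Ioi (1 : ℝ), 2 * C * (2 + 1 / δ) * t ^ (-1 - δ) =
        2 * C * (2 + 1 / δ) / δ := by
      rw [integral_const_mul, integral_Ioi_rpow_of_lt (by linarith) one_pos, Real.one_rpow]
      have e : -1 - δ + 1 = -δ := by ring
      rw [e]
      field_simp
    rw [← hb]
    refine norm_integral_le_of_norm_le ?_ ?_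
    · exact (integrableOn_Ioi_rpow_of_lt (by linarith) one_pos).const_mul _
    · refine (ae_restrict_iff' measurableSet_Ioi).2 (Eventually.of_forall fun t ht => ?_)
      have ht1 : (1 : ℝ) < t := ht
      have ht0 : 0 < t := by linarith
      rw [norm_mul, Complex.norm_cpow_eq_rpow_re_of_pos ht0]
      have h1 := sf_bound hC h hδ ht1.le
      have e : (-(z + 1)).re = -(z.re + 1) := by simp
      rw [e]
      calc ‖sf c t‖ * t ^ (-(z.re + 1)) ≤
          2 * C * (2 + 1 / δ) * t ^ (1 + δ) * t ^ (-(z.re + 1)) :=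
            mul_le_mul_of_nonneg_right h1 (by positivity)
        _ = 2 * C * (2 + 1 / δ) * t ^ (-1 - δ) := by
            rw [mul_assoc, ← Real.rpow_add ht0]
            congr 2
            rw [hδe]
            ring
  unfold GZ
  rw [norm_mul]
  have h2 : 2 * C * (2 + 1 / δ) / δ ≤ 8 * C * (1 + 1 / (z.re - 1)) ^ 2 := by
    have hu : 0 < 1 / (z.re - 1) := by
      apply one_div_pos.2
      linarith
    have e1 : 1 / δ = 2 * (1 / (z.re - 1)) := by
      rw [hδe]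
      field_simp
    have e2 : 2 * C * (2 + 1 / δ) / δ = 2 * C * (2 + 1 / δ) * (1 / δ) := by ring
    rw [e2, e1]
    generalize 1 / (z.re - 1) = u at hu
    have : 2 * C * (2 + 2 * u) * (2 * u) = 8 * C * ((1 + u) * u) := by ring
    rw [this]
    refine mul_le_mul_of_nonneg_left ?_ (by positivity)
    nlinarith
  calc ‖z‖ * ‖mellin (sf c) (-z)‖ ≤ ‖z‖ * (8 * C * (1 + 1 / (z.re - 1)) ^ 2) :=
        mul_le_mul_of_nonneg_left (hint.trans h2) (norm_nonneg _)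
    _ = _ := by ring

lemma coef_bound {c : ℕ → ℂ} {C : ℝ} (hC : 0 ≤ C)
    (h : ∀ M : ℕ, ‖∑ k ∈ Finset.Icc 1 M, c k‖ ≤ C * ((M : ℝ) + 1) * (1 + Real.log ((M : ℝ) + 1)))
    (M : ℕ) : ‖∑ k ∈ Finset.Icc 1 M, c k‖ ≤ C * ((M : ℝ) + 1) ^ 2 := by
  refine (h M).trans ?_
  have hM0 : (0 : ℝ) ≤ M := Nat.cast_nonneg _
  have h1 : Real.log ((M : ℝ) + 1) ≤ M := by
    have := Real.log_le_sub_one_of_pos (show (0 : ℝ) < (M : ℝ) + 1 by positivity)
    linarith
  have h2 : C * ((M : ℝ) + 1) * (1 + Real.log ((M : ℝ) + 1)) ≤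
      C * ((M : ℝ) + 1) * ((M : ℝ) + 1) :=
    mul_le_mul_of_nonneg_left (by linarith) (by positivity)
  calc _ ≤ C * ((M : ℝ) + 1) * ((M : ℝ) + 1) := h2
    _ = _ := by ring

lemma lsummable {c : ℕ → ℂ} {C : ℝ} (hC : 0 ≤ C)
    (h : ∀ M : ℕ, ‖∑ k ∈ Finset.Icc 1 M, c k‖ ≤ C * ((M : ℝ) + 1) * (1 + Real.log ((M : ℝ) + 1)))
    {z : ℂ} (hz : 3 < z.re) : LSeriesSummable c z := by
  refine LSeriesSummable_of_le_const_mul_rpow hz ⟨8 * C, fun n hn => ?_⟩
  obtain ⟨m, rfl⟩ : ∃ m, n = m + 1 := ⟨n - 1, by omega⟩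
  have h1 := coef_bound hC h (m + 1)
  have h2 := coef_bound hC h m
  have e : c (m + 1) = ∑ k ∈ Finset.Icc 1 (m + 1), c k - ∑ k ∈ Finset.Icc 1 m, c k := by
    rw [Finset.sum_Icc_succ_top (by omega)]
    ring
  have hm0 : (0 : ℝ) ≤ m := Nat.cast_nonneg _
  have e2 : (((m + 1 : ℕ) : ℝ)) ^ ((3 : ℝ) - 1) = (((m + 1 : ℕ) : ℝ)) ^ 2 := by
    rw [show (3 : ℝ) - 1 = ((2 : ℕ) : ℝ) by norm_num, Real.rpow_natCast]
  rw [e2, e]
  refine (norm_sub_le _ _).trans ?_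
  push_cast at h1 ⊢
  nlinarith [mul_nonneg hC hm0, mul_nonneg hC (mul_nonneg hm0 hm0)]

lemma LSeries_eq {c : ℕ → ℂ} {C : ℝ} (hC : 0 ≤ C)
    (h : ∀ M : ℕ, ‖∑ k ∈ Finset.Icc 1 M, c k‖ ≤ C * ((M : ℝ) + 1) * (1 + Real.log ((M : ℝ) + 1)))
    {z : ℂ} (hz : 3 < z.re) : LSeries c z = GZ c z := by
  unfold GZ
  rw [mellin_eq]
  refine LSeries_eq_mul_integral c (r := 2) (by norm_num) (by linarith) (lsummable hC h hz) ?_
  refine IsBigO.of_bound (4 * C) ?_
  filter_upwards [eventually_ge_atTop 1] with M hM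
  have h1 := coef_bound hC h M
  have hM1 : (1 : ℝ) ≤ M := by exact_mod_cast hM
  rw [show (2 : ℝ) = ((2 : ℕ) : ℝ) by norm_num, Real.rpow_natCast,
    Real.norm_of_nonneg (by positivity)]
  refine h1.trans ?_
  have h2 : ((M : ℝ) + 1) ^ 2 ≤ 4 * (M : ℝ) ^ 2 := by nlinarith
  calc C * ((M : ℝ) + 1) ^ 2 ≤ C * (4 * (M : ℝ) ^ 2) := mul_le_mul_of_nonneg_left h2 hC
    _ = 4 * C * (M : ℝ) ^ 2 := by ring

/-! ### Local factors -/

lemma geom_rec {u : ℕ → ℂ} (hu : Summable u) (a b : ℂ) (h0 : u 0 = 1) (h1 : u 1 = a)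
    (h2 : ∀ e, u (e + 2) = a * u (e + 1) - b * u e) : (∑' e, u e) * (1 - a + b) = 1 := by
  have hs1 : Summable fun e => u (e + 1) := (summable_nat_add_iff 1).2 hu
  have hs2 : Summable fun e => u (e + 2) := (summable_nat_add_iff 2).2 hu
  have e1 : ∑' e, u e = u 0 + ∑' e, u (e + 1) := hu.tsum_eq_zero_add
  have e2 : ∑' e, u (e + 1) = u 1 + ∑' e, u (e + 2) := by
    have := hs1.tsum_eq_zero_add
    simpa [add_assoc] using this
  have e3 : ∑' e, u (e + 2) = a * ∑' e, u (e + 1) - b * ∑' e, u e := by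
    rw [← tsum_mul_left, ← tsum_mul_left, ← (hs1.mul_left a).tsum_sub (hu.mul_left b)]
    exact tsum_congr h2
  rw [h0] at e1
  rw [h1] at e2
  linear_combination (1 - a) * e1 + e2 + e3

/-! ### The Euler products -/

open CongruenceSubgroup Pool.Agent.TH941
open scoped MatrixGroups
open Pool.Agent.W165.RS (ac ac_zero)
open Pool.Agent.W263.BSD (IsLSeries PhiF GoodPrime pointCount small ef ef_ne_zero good_of_large)

/-- the factor of the incomplete L-series -/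
noncomputable def Df (a b : ℤ) (p : ℕ) (z : ℂ) : ℂ :=
  1 - ((p : ℂ) - (pointCount a b p : ℂ)) * (p : ℂ) ^ (-z) + (p : ℂ) ^ (1 - 2 * z)

/-- the factor of the L-series of a newform -/
noncomputable def Ef (c : ℕ → ℂ) (N p : ℕ) (z : ℂ) : ℂ :=
  1 - c p * (p : ℂ) ^ (-z) + (if p ∣ N then 0 else (p : ℂ) ^ (1 - 2 * z))

lemma cpow_sq {p : ℕ} (hp : p.Prime) (z : ℂ) :
    (p : ℂ) ^ (1 - 2 * z) = p * ((p : ℂ) ^ (-z)) ^ 2 := by
  have hp0 : (p : ℂ) ≠ 0 := by exact_mod_cast hp.ne_zero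
  rw [show 1 - 2 * z = 1 + (-z + -z) by ring, Complex.cpow_add _ _ hp0, Complex.cpow_one,
    Complex.cpow_add _ _ hp0]
  ring

lemma norm_pz {p : ℕ} (hp : p.Prime) {z : ℂ} (hz : 1 < z.re) : ‖(p : ℂ) ^ (-z)‖ ≤ 1 / p := by
  have hp0 : (0 : ℝ) < p := by exact_mod_cast hp.pos
  rw [Complex.norm_natCast_cpow_of_pos hp.pos, Complex.neg_re, one_div, ← Real.rpow_neg_one]
  exact Real.rpow_le_rpow_of_exponent_le (by exact_mod_cast hp.one_le) (by linarith)

lemma norm_pz2 {p : ℕ} (hp : p.Prime) {z : ℂ} (hz : 1 < z.re) :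
    ‖(p : ℂ) ^ (1 - 2 * z)‖ ≤ 1 / p := by
  have hp0 : (0 : ℝ) < p := by exact_mod_cast hp.pos
  have e : (1 - 2 * z).re = 1 - 2 * z.re := by simp
  rw [Complex.norm_natCast_cpow_of_pos hp.pos, e, one_div, ← Real.rpow_neg_one]
  exact Real.rpow_le_rpow_of_exponent_le (by exact_mod_cast hp.one_le) (by linarith)

lemma Df_differentiable (a b : ℤ) {p : ℕ} (hp : p.Prime) : Differentiable ℂ (Df a b p) := by
  have hp0 : (p : ℂ) ≠ 0 := by exact_mod_cast hp.ne_zero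
  intro w
  unfold Df
  refine DifferentiableAt.add (DifferentiableAt.sub (differentiableAt_const _)
    (DifferentiableAt.const_mul ?_ _)) ?_
  · refine DifferentiableAt.const_cpow ?_ (Or.inl hp0)
    fun_prop
  · refine DifferentiableAt.const_cpow ?_ (Or.inl hp0)
    fun_prop

lemma Ef_differentiable (c : ℕ → ℂ) (N : ℕ) {p : ℕ} (hp : p.Prime) :
    Differentiable ℂ (Ef c N p) := by
  have hp0 : (p : ℂ) ≠ 0 := by exact_mod_cast hp.ne_zero
  intro w
  unfold Ef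
  refine DifferentiableAt.add (DifferentiableAt.sub (differentiableAt_const _)
    (DifferentiableAt.const_mul ?_ _)) ?_
  · refine DifferentiableAt.const_cpow ?_ (Or.inl hp0)
    fun_prop
  · split_ifs
    · exact differentiableAt_const _
    · refine DifferentiableAt.const_cpow ?_ (Or.inl hp0)
      fun_prop

lemma Df_le {a b : ℤ} {p : ℕ} (hp : p.Prime) {z : ℂ} (hz : 1 < z.re) :
    ‖Df a b p z‖ ≤ 2 + ‖(p : ℂ) - (pointCount a b p : ℂ)‖ := by
  have hp1 : (1 : ℝ) / p ≤ 1 := by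
    rw [div_le_one (by exact_mod_cast hp.pos)]
    exact_mod_cast hp.one_le
  have h1 := norm_pz hp hz
  have h2 := norm_pz2 hp hz
  unfold Df
  refine (norm_add_le _ _).trans ?_
  have h3 := norm_sub_le (1 : ℂ) (((p : ℂ) - (pointCount a b p : ℂ)) * (p : ℂ) ^ (-z))
  rw [norm_mul, norm_one] at h3
  have h4 : ‖(p : ℂ) - (pointCount a b p : ℂ)‖ * ‖(p : ℂ) ^ (-z)‖ ≤
      ‖(p : ℂ) - (pointCount a b p : ℂ)‖ * 1 :=
    mul_le_mul_of_nonneg_left (h1.trans hp1) (norm_nonneg _)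
  linarith

lemma Ef_le {c : ℕ → ℂ} {N p : ℕ} (hp : p.Prime) {z : ℂ} (hz : 1 < z.re) :
    ‖Ef c N p z‖ ≤ 2 + ‖c p‖ := by
  have hp1 : (1 : ℝ) / p ≤ 1 := by
    rw [div_le_one (by exact_mod_cast hp.pos)]
    exact_mod_cast hp.one_le
  have h1 := norm_pz hp hz
  have h2 := norm_pz2 hp hz
  unfold Ef
  refine (norm_add_le _ _).trans ?_
  have h3 := norm_sub_le (1 : ℂ) (c p * (p : ℂ) ^ (-z))
  rw [norm_mul, norm_one] at h3
  have h4 : ‖c p‖ * ‖(p : ℂ) ^ (-z)‖ ≤ ‖c p‖ * 1 :=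
    mul_le_mul_of_nonneg_left (h1.trans hp1) (norm_nonneg _)
  have h5 : ‖(if p ∣ N then 0 else (p : ℂ) ^ (1 - 2 * z) : ℂ)‖ ≤ 1 := by
    split_ifs
    · rw [norm_zero]; exact zero_le_one
    · exact h2.trans hp1
  linarith

lemma Df_ge {a b : ℤ} {p : ℕ} (hp : p.Prime) (hp3 : 3 ≤ p)
    (h : ‖(p : ℂ) - (pointCount a b p : ℂ)‖ ≤ 1) {z : ℂ} (hz : 1 < z.re) :
    1 / 3 ≤ ‖Df a b p z‖ := by
  have hp3' : (3 : ℝ) ≤ p := by exact_mod_cast hp3
  have hp1 : (1 : ℝ) / p ≤ 1 / 3 := one_div_le_one_div_of_le (by norm_num) hp3'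
  have h1 := norm_pz hp hz
  have h2 := norm_pz2 hp hz
  have h3 : ‖((p : ℂ) - (pointCount a b p : ℂ)) * (p : ℂ) ^ (-z)‖ ≤ 1 * (1 / p) := by
    rw [norm_mul]
    exact mul_le_mul h h1 (norm_nonneg _) zero_le_one
  have h4 : (1 : ℂ) = Df a b p z + (((p : ℂ) - (pointCount a b p : ℂ)) * (p : ℂ) ^ (-z) -
      (p : ℂ) ^ (1 - 2 * z)) := by
    unfold Df
    ring
  have h5 : (1 : ℝ) ≤ ‖Df a b p z‖ + (‖((p : ℂ) - (pointCount a b p : ℂ)) * (p : ℂ) ^ (-z)‖ +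
      ‖(p : ℂ) ^ (1 - 2 * z)‖) := by
    calc (1 : ℝ) = ‖(1 : ℂ)‖ := by simp
      _ = ‖Df a b p z + (((p : ℂ) - (pointCount a b p : ℂ)) * (p : ℂ) ^ (-z) -
      (p : ℂ) ^ (1 - 2 * z))‖ := by rw [← h4]
      _ ≤ _ := (norm_add_le _ _).trans (by
        have := norm_sub_le (((p : ℂ) - (pointCount a b p : ℂ)) * (p : ℂ) ^ (-z))
          ((p : ℂ) ^ (1 - 2 * z))
        linarith)
  linarith

section

variable {a b : ℤ} {N : ℕ} [NeZero N] {f : CuspForm (Gamma0 N : Subgroup (GL (Fin 2) ℝ)) 2}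

lemma local_factor (hf : Hecke f) {p : ℕ} (hp : p.Prime) {z : ℂ}
    (hs : LSeriesSummable (ac f) z) :
    (∑' e : ℕ, LSeries.term (ac f) z (p ^ e)) * Ef (ac f) N p z = 1 := by
  have hinj : Function.Injective fun e : ℕ => p ^ e := Nat.pow_right_injective hp.two_le
  have hsum : Summable fun e : ℕ => LSeries.term (ac f) z (p ^ e) := hs.comp_injective hinj
  have hp0 : (p : ℂ) ≠ 0 := by exact_mod_cast hp.ne_zero
  have hpow : ∀ e : ℕ, ((p ^ e : ℕ) : ℂ) ^ z = ((p : ℂ) ^ z) ^ e := by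
    intro e
    induction e with
    | zero => simp
    | succ e ih =>
      rw [pow_succ, pow_succ, ← ih, Nat.cast_mul, Complex.natCast_mul_natCast_cpow]
  have hterm : ∀ e : ℕ, LSeries.term (ac f) z (p ^ e) =
      ac f (p ^ e) * ((p : ℂ) ^ (-z)) ^ e := by
    intro e
    rw [LSeries.term_of_ne_zero (pow_ne_zero e hp.ne_zero), hpow, Complex.cpow_neg, inv_pow,
      div_eq_mul_inv]
  unfold Ef
  refine geom_rec hsum _ _ ?_ ?_ ?_
  · rw [hterm]
    simp [hf.one]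
  · rw [hterm]
    simp
  · intro e
    rw [hterm, hterm, hterm, hf.pow p e hp, cpow_sq hp]
    split_ifs <;> ring

lemma euler (hf : Hecke f) {z : ℂ} (hs : LSeriesSummable (ac f) z) :
    HasProd (Set.mulIndicator {p | Nat.Prime p} fun p => ∑' e : ℕ, LSeries.term (ac f) z (p ^ e))
      (LSeries (ac f) z) := by
  refine EulerProduct.eulerProduct_hasProd_mulIndicator (f := LSeries.term (ac f) z) ?_ ?_
    hs.norm (LSeries.term_zero _ _)
  · rw [LSeries.term_of_ne_zero one_ne_zero, hf.one]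
    simp
  · intro m n hmn
    rcases Nat.eq_zero_or_pos m with rfl | hm
    · simp
    rcases Nat.eq_zero_or_pos n with rfl | hn
    · simp
    rw [LSeries.term_of_ne_zero (Nat.mul_ne_zero hm.ne' hn.ne'), LSeries.term_of_ne_zero hm.ne',
      LSeries.term_of_ne_zero hn.ne', hf.mul m n hmn, Nat.cast_mul,
      Complex.natCast_mul_natCast_cpow, mul_div_mul_comm]

open Classical in
lemma key_identity {F : ℂ → ℂ} (hF : IsLSeries a b F) (hf : Hecke f) (hb : Belongs a b f)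
    {z : ℂ} (hz : 3 < z.re) (hs : LSeriesSummable (ac f) z) (S : Finset ℕ)
    (hSp : ∀ p ∈ S, p.Prime) (hS : ∀ p : ℕ, p.Prime → p ∉ S → GoodPrime a b p ∧ ¬ p ∣ N) :
    F z * ∏ p ∈ S, (if GoodPrime a b p then Df a b p z else 1) =
      LSeries (ac f) z * ∏ p ∈ S, Ef (ac f) N p z := by
  have h1 := hF.2 z (by linarith)
  have hprod : ∀ φ : ℕ → ℂ, HasProd (fun p : ℕ => if p ∈ S then φ p else 1) (∏ p ∈ S, φ p) := by
    intro φ
    have e : ∏ p ∈ S, φ p = ∏ p ∈ S, (if p ∈ S then φ p else 1) :=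
      Finset.prod_congr rfl fun p hp => by rw [if_pos hp]
    rw [e]
    exact hasProd_prod_of_ne_finset_one fun p hp => by rw [if_neg hp]
  have h3 := h1.mul (hprod fun p => if GoodPrime a b p then Df a b p z else 1)
  have h4 := (euler hf hs).mul (hprod fun p => Ef (ac f) N p z)
  refine HasProd.unique ?_ h4
  convert h3 using 1
  funext p
  by_cases hp : p.Prime
  · rw [Set.mulIndicator_of_mem (show p ∈ {p | Nat.Prime p} from hp)]
    have hloc := local_factor hf hp hs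
    by_cases hpS : p ∈ S
    · rw [if_pos hpS, if_pos hpS, hloc]
      by_cases hg : GoodPrime a b p
      · rw [if_pos hg, if_pos hg]
        have hne : ef a b p (z - 1) ≠ 0 := ef_ne_zero hp (by simp; linarith)
        have he : ef a b p (z - 1) = Df a b p z := by
          unfold ef Df
          rw [show 1 + (z - 1) = z by ring]
        rw [he] at hne
        exact (inv_mul_cancel₀ hne).symm
      · rw [if_neg hg, if_neg hg, one_mul]
    · obtain ⟨hg, hN⟩ := hS p hp hpS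
      rw [if_neg hpS, if_neg hpS, if_pos hg, mul_one, mul_one]
      have he : Ef (ac f) N p z = 1 - ((p : ℂ) - (pointCount a b p : ℂ)) * (p : ℂ) ^ (-z) +
          (p : ℂ) ^ (1 - 2 * z) := by
        unfold Ef
        rw [if_neg hN, hb p hg]
      rw [he] at hloc
      exact eq_inv_of_mul_eq_one_left hloc
  · have hg : ¬ GoodPrime a b p := fun h => hp h.1
    have hpS : p ∉ S := fun h => hp (hSp p h)
    rw [Set.mulIndicator_of_notMem (show p ∉ {p | Nat.Prime p} from hp), if_neg hpS, if_neg hpS,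
      if_neg hg]

end

end Growth

open Growth in
open CongruenceSubgroup Pool.Agent.TH941 in
open scoped MatrixGroups in
open Pool.Agent.W165.RS (ac ac_zero) in
open Pool.Agent.W263.BSD (IsLSeries PhiF GoodPrime pointCount small ef ef_ne_zero good_of_large) in
theorem growth {a b : ℤ} {F : ℂ → ℂ} (hΔ : 4 * a ^ 3 + 27 * b ^ 2 ≠ 0) (hF : IsLSeries a b F)
    {N : ℕ} [NeZero N] {f : CuspForm (Gamma0 N : Subgroup (GL (Fin 2) ℝ)) 2} (hf : Hecke f)
    (hb : Belongs a b f)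
    (hS : ∃ C : ℝ, 0 ≤ C ∧ ∀ M : ℕ, ‖∑ n ∈ Finset.range (M + 1), ac f n‖ ≤
      C * ((M : ℝ) + 1) * (1 + Real.log ((M : ℝ) + 1))) :
    ∃ C : ℝ, ∀ s : ℂ, 0 < s.re → ‖PhiF a b F s‖ ≤ C * (1 + ‖s‖) * (1 + 1 / s.re) ^ 2 := by
  classical
  obtain ⟨C, hC, hS⟩ := hS
  have hS' : ∀ M : ℕ, ‖∑ k ∈ Finset.Icc 1 M, ac f k‖ ≤
      C * ((M : ℝ) + 1) * (1 + Real.log ((M : ℝ) + 1)) := by
    intro M
    have e : ∑ n ∈ Finset.range (M + 1), ac f n = ∑ k ∈ Finset.Icc 1 M, ac f k := by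
      have : Finset.range (M + 1) = insert 0 (Finset.Icc 1 M) := by
        ext x
        simp only [Finset.mem_range, Finset.mem_insert, Finset.mem_Icc]
        omega
      rw [this, Finset.sum_insert (by simp), ac_zero, zero_add]
    rw [← e]
    exact hS M
  obtain ⟨D, hD⟩ := good_of_large hΔ
  have hN0 : N ≠ 0 := NeZero.ne N
  obtain ⟨S, hSe⟩ : ∃ S : Finset ℕ, S = (Finset.range (D + N + 1)).filter
      (fun p => p.Prime ∧ (¬ GoodPrime a b p ∨ p ∣ N)) := ⟨_, rfl⟩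
  have hSp : ∀ p ∈ S, p.Prime := by
    intro p hp
    rw [hSe, Finset.mem_filter] at hp
    exact hp.2.1
  have hSn : ∀ p : ℕ, p.Prime → p ∉ S → GoodPrime a b p ∧ ¬ p ∣ N := by
    intro p hp hpS
    rw [hSe, Finset.mem_filter, Finset.mem_range] at hpS
    by_cases hlt : p < D + N + 1
    · by_contra hcon
      apply hpS
      refine ⟨hlt, hp, ?_⟩
      tauto
    · refine ⟨hD p hp (by omega), fun hd => ?_⟩
      have := Nat.le_of_dvd (Nat.pos_of_ne_zero hN0) hd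
      omega
  have hSg : ∀ p ∈ S, GoodPrime a b p → 3 ≤ p ∧
      ‖(p : ℂ) - (pointCount a b p : ℂ)‖ ≤ 1 := by
    intro p hp hg
    rw [hSe, Finset.mem_filter] at hp
    have hdN : p ∣ N := by
      rcases hp.2.2 with h | h
      · exact absurd hg h
      · exact h
    constructor
    · have h2 := hp.2.1.two_le
      rcases Nat.lt_or_ge p 3 with h | h
      · exfalso
        have hp2 : p = 2 := by omega
        apply hg.2
        rw [hp2]
        exact Dvd.intro _ rfl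
      · exact h
    · rw [← hb p hg]
      exact hf.bad p hp.2.1 hdN
  -- the finite products
  obtain ⟨P1, hP1⟩ : ∃ P1 : ℂ → ℂ, P1 = fun z => ∏ p ∈ S, Ef (ac f) N p z := ⟨_, rfl⟩
  obtain ⟨P2, hP2⟩ : ∃ P2 : ℂ → ℂ, P2 = fun z => ∏ p ∈ S,
    (if GoodPrime a b p then Df a b p z else 1) := ⟨_, rfl⟩
  have hP1d : Differentiable ℂ P1 := by
    rw [hP1]
    intro w
    refine DifferentiableAt.fun_finsetProd fun p hp => ?_
    exact Ef_differentiable _ _ (hSp p hp) w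
  have hP2d : Differentiable ℂ P2 := by
    rw [hP2]
    intro w
    refine DifferentiableAt.fun_finsetProd fun p hp => ?_
    split_ifs
    · exact Df_differentiable _ _ (hSp p hp) w
    · exact differentiableAt_const _
  -- the identity
  have hU : IsOpen {z : ℂ | 1 < z.re} := isOpen_lt continuous_const Complex.continuous_re
  have hUc : IsPreconnected {z : ℂ | 1 < z.re} := (convex_halfSpace_re_gt 1).isPreconnected
  have hA1 : AnalyticOnNhd ℂ (fun z => F z * P2 z) {z : ℂ | 1 < z.re} :=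
    (hF.1.mul hP2d).differentiableOn.analyticOnNhd hU
  have hA2 : AnalyticOnNhd ℂ (fun z => GZ (ac f) z * P1 z) {z : ℂ | 1 < z.re} := by
    refine DifferentiableOn.analyticOnNhd (fun z hz => ?_) hU
    exact ((GZ_differentiable hC hS' hz).mul (hP1d z)).differentiableWithinAt
  have hEq : Set.EqOn (fun z => F z * P2 z) (fun z => GZ (ac f) z * P1 z) {z : ℂ | 1 < z.re} := by
    refine hA1.eqOn_of_preconnected_of_eventuallyEq hA2 hUc (z₀ := 4) ?_ ?_
    · show (1 : ℝ) < (4 : ℂ).re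
      norm_num
    · have hV : IsOpen {z : ℂ | 3 < z.re} := isOpen_lt continuous_const Complex.continuous_re
      have h4 : (4 : ℂ) ∈ {z : ℂ | 3 < z.re} := by
        show (3 : ℝ) < (4 : ℂ).re
        norm_num
      filter_upwards [hV.mem_nhds h4] with z hz
      have hz' : 3 < z.re := hz
      have hk := key_identity hF hf hb hz' (lsummable hC hS' hz') S hSp hSn
      rw [LSeries_eq hC hS' hz'] at hk
      rw [hP1, hP2]
      exact hk
  -- bounds
  have hB1 : ∀ z : ℂ, 1 < z.re → ‖P1 z‖ ≤ ∏ p ∈ S, (2 + ‖ac f p‖) := by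
    intro z hz
    rw [hP1]
    simp only
    rw [norm_prod]
    exact Finset.prod_le_prod (fun p _ => norm_nonneg _) fun p hp => Ef_le (hSp p hp) hz
  have hB2 : ∀ z : ℂ, 1 < z.re → (1 / 3 : ℝ) ^ S.card ≤ ‖P2 z‖ := by
    intro z hz
    rw [hP2]
    simp only
    rw [norm_prod, ← Finset.prod_const]
    refine Finset.prod_le_prod (fun p _ => by norm_num) fun p hp => ?_
    split_ifs with hg
    · obtain ⟨h3, h1⟩ := hSg p hp hg
      exact Df_ge (hSp p hp) h3 h1 hz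
    · rw [norm_one]; norm_num
  have hB3 : ∀ s : ℂ, 0 < s.re → ‖small a b s‖ ≤
      ∏ p ∈ Finset.range 25, (2 + ‖(p : ℂ) - (pointCount a b p : ℂ)‖) := by
    intro s hs
    unfold small
    rw [norm_prod]
    refine Finset.prod_le_prod (fun p _ => norm_nonneg _) fun p _ => ?_
    split_ifs with hg
    · have he : ef a b p s = Df a b p (1 + s) := rfl
      rw [he]
      exact Df_le hg.1 (by simp; linarith)
    · rw [norm_one]
      have := norm_nonneg ((p : ℂ) - (pointCount a b p : ℂ))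
      linarith
  obtain ⟨K1, hK1⟩ : ∃ K1 : ℝ, K1 = ∏ p ∈ S, (2 + ‖ac f p‖) := ⟨_, rfl⟩
  obtain ⟨K2, hK2⟩ : ∃ K2 : ℝ, K2 = (3 : ℝ) ^ S.card := ⟨_, rfl⟩
  obtain ⟨K3, hK3⟩ : ∃ K3 : ℝ, K3 = ∏ p ∈ Finset.range 25,
    (2 + ‖(p : ℂ) - (pointCount a b p : ℂ)‖) := ⟨_, rfl⟩
  have hK10 : 0 ≤ K1 := by
    rw [hK1]
    exact Finset.prod_nonneg fun p _ => by positivity
  have hK20 : 0 ≤ K2 := by rw [hK2]; positivity
  refine ⟨8 * C * K1 * K2 * K3, fun s hs => ?_⟩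
  have hz : 1 < (1 + s).re := by simp; linarith
  have hre : (1 + s).re - 1 = s.re := by simp
  have h1 := hEq hz
  simp only at h1
  have h2 : ‖F (1 + s)‖ * ‖P2 (1 + s)‖ = ‖GZ (ac f) (1 + s)‖ * ‖P1 (1 + s)‖ := by
    rw [← norm_mul, ← norm_mul, h1]
  have h3 := GZ_bound hC hS' hz
  rw [hre] at h3
  have h4 := hB1 _ hz
  have h5 := hB2 _ hz
  have h6 := hB3 s hs
  rw [← hK1] at h4
  rw [← hK3] at h6
  have hn1 : ‖1 + s‖ ≤ 1 + ‖s‖ := by
    refine (norm_add_le _ _).trans ?_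
    rw [norm_one]
  have hG : ‖GZ (ac f) (1 + s)‖ ≤ 8 * C * (1 + ‖s‖) * (1 + 1 / s.re) ^ 2 := by
    refine h3.trans ?_
    refine mul_le_mul_of_nonneg_right ?_ (by positivity)
    exact mul_le_mul_of_nonneg_left hn1 (by positivity)
  have hFb : ‖F (1 + s)‖ ≤ 8 * C * (1 + ‖s‖) * (1 + 1 / s.re) ^ 2 * K1 * K2 := by
    have h7 : ‖F (1 + s)‖ * (1 / 3 : ℝ) ^ S.card ≤
        8 * C * (1 + ‖s‖) * (1 + 1 / s.re) ^ 2 * K1 := by
      calc ‖F (1 + s)‖ * (1 / 3 : ℝ) ^ S.card ≤ ‖F (1 + s)‖ * ‖P2 (1 + s)‖ :=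
            mul_le_mul_of_nonneg_left h5 (norm_nonneg _)
        _ = ‖GZ (ac f) (1 + s)‖ * ‖P1 (1 + s)‖ := h2
        _ ≤ _ := mul_le_mul hG h4 (norm_nonneg _) (by positivity)
    have h8 : (1 / 3 : ℝ) ^ S.card * K2 = 1 := by
      rw [hK2, ← mul_pow]
      norm_num
    calc ‖F (1 + s)‖ = ‖F (1 + s)‖ * (1 / 3 : ℝ) ^ S.card * K2 := by
          rw [mul_assoc, h8, mul_one]
      _ ≤ 8 * C * (1 + ‖s‖) * (1 + 1 / s.re) ^ 2 * K1 * K2 :=
          mul_le_mul_of_nonneg_right h7 hK20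
  unfold PhiF
  rw [norm_mul]
  calc ‖F (1 + s)‖ * ‖small a b s‖ ≤
      8 * C * (1 + ‖s‖) * (1 + 1 / s.re) ^ 2 * K1 * K2 * K3 :=
        mul_le_mul hFb h6 (norm_nonneg _) (by positivity)
    _ = _ := by ring

end Pool.Agent.TH942.RZ
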