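import Pool.Agent.H21.L.R_seed8.TH942.SL.Curve

/-!
# The correction function on the half plane

`‖GK a b s‖ ≤ A (1 + log (1 + ‖s‖ / Re s))` for `Re s > 0`.
-/

set_option autoImplicit false

namespace Pool.Agent.TH942.RZ.GKb

open MeasureTheory Filter Topology Set Classical
open Pool.Agent.W263.BSD Pool.Agent.W189.ML Pool.Agent.W187.UR
open Pool.Agent.TH942.LS (lm cE dat cont Kf Cont Dat)
open Pool.Agent.TH942.SL

/-- `min (2, v) ≤ 4 (1 - e^(-v))` -/
theorem min_le_exp {u v : ℝ} (hv : 0 ≤ v) (h1 : u ≤ 2) (h2 : u ≤ v) :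
    u ≤ 4 * (1 - Real.exp (-v)) := by
  have h3 : 1 + v ≤ Real.exp v := by linarith [Real.add_one_le_exp v]
  have h4 : Real.exp (-v) ≤ (1 + v)⁻¹ := by
    rw [Real.exp_neg]
    exact inv_anti₀ (by linarith) h3
  have h5 : 1 - (1 + v)⁻¹ = v / (1 + v) := by
    field_simp
    ring
  have h6 : u ≤ 4 * (v / (1 + v)) := by
    rw [← mul_div_assoc, le_div_iff₀ (by linarith)]
    rcases le_total v 1 with h | h
    · nlinarith
    · nlinarith
  linarith

variable {S : Set ℕ} {A : ℕ → ℝ}

/-- the bound of the correction function of an Euler product on the half plane -/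
theorem GG_half (E : EData S A) : ∃ C : ℝ, 0 ≤ C ∧ ∀ w : ℂ, 0 < w.re →
    ‖GG S A w‖ ≤ C + 4 * Real.log (1 + ‖w‖ / w.re) := by
  obtain ⟨C, hC⟩ := Pool.Agent.H341R2.lam_bounded
  obtain ⟨e₀, he₀, h1⟩ : ∃ ε₀ > 0, ∀ ε : ℝ, 0 < ε → ε < ε₀ →
      |Pool.Agent.H341R2.lam ε + Real.log ε| ≤ C := by
    rw [eventually_nhdsWithin_iff, Metric.eventually_nhds_iff] at hC
    obtain ⟨ε₀, hε₀, h⟩ := hC
    refine ⟨ε₀, hε₀, fun ε h3 h4 => h (y := ε) ?_ h3⟩
    rw [Real.dist_eq, sub_zero, abs_of_pos h3]
    exact h4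
  set δ := e₀ / 2 with hδ
  have hδ0 : 0 < δ := by positivity
  set B1 : ℝ := ∑' p : ℕ, 60 * (p : ℝ) ^ (-(3 / 2) : ℝ) with hB1
  set B2 : ℝ := ∑' p : ℕ, (2 * (p : ℝ) ^ (-1 - δ) + 60 * (p : ℝ) ^ (-(3 / 2) : ℝ)) with hB2
  have hC0 : 0 ≤ C := (abs_nonneg _).trans (h1 δ hδ0 (by linarith))
  refine ⟨8 * C + 4 * |Real.log e₀| + |B1| + |B2|, by positivity, fun w hw => ?_⟩
  have hr0 : 0 < ‖w‖ := hw.trans_le (Complex.re_le_norm w)
  have hL : 0 ≤ Real.log (1 + ‖w‖ / w.re) := Real.log_nonneg (by
    have : 0 < ‖w‖ / w.re := by positivity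
    linarith)
  have hB1' := le_abs_self B1
  have hB2' := le_abs_self B2
  have hB1'' := abs_nonneg B1
  have hB2'' := abs_nonneg B2
  have hl0 := abs_nonneg (Real.log e₀)
  by_cases hc : δ < w.re
  · have h2 : ‖GG S A w‖ ≤ B2 := by
      unfold GG
      exact tsum_of_norm_bounded (summable_bound hδ0).hasSum fun p => E.gterm_norm hδ0 p hc
    linarith
  · push Not at hc
    set x := w.re with hx
    set r := ‖w‖ with hr
    have hs1 := summable_primes (w := x) hw
    have hs2 := summable_primes (w := x + r) (by positivity)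
    set f : ℕ → ℝ := fun p => 4 * ((p : ℝ) ^ (-(1 + x)) - (p : ℝ) ^ (-(1 + (x + r)))) with hf
    have hs' : Summable (fun p : Nat.Primes => f p) := (hs1.sub hs2).mul_left 4
    have hf1 : Summable (({p : ℕ | p.Prime}).indicator f) :=
      (summable_subtype_iff_indicator (f := f) (s := {p : ℕ | p.Prime})).mp hs'
    have e5 : ∑' p : Nat.Primes, (p : ℝ) ^ (-(1 + x)) = Pool.Agent.H341R2.lam x := rfl
    have e6 : ∑' p : Nat.Primes, (p : ℝ) ^ (-(1 + (x + r))) = Pool.Agent.H341R2.lam (x + r) := rfl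
    have hf2 : ∑' p, ({p : ℕ | p.Prime}).indicator f p =
        4 * (Pool.Agent.H341R2.lam x - Pool.Agent.H341R2.lam (x + r)) := by
      rw [← e5, ← e6, ← hs1.tsum_sub hs2, ← tsum_mul_left]
      exact (tsum_subtype {p : ℕ | p.Prime} f).symm
    have hg1 : Summable fun p : ℕ => 60 * (p : ℝ) ^ (-(3 / 2) : ℝ) :=
      (Real.summable_nat_rpow.mpr (by norm_num)).mul_left _
    have hfexp : ∀ p : ℕ, 1 ≤ (p : ℝ) →
        f p = 1 / p * (p : ℝ) ^ (-x) * (4 * (1 - Real.exp (-(r * Real.log p)))) := by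
      intro p hp1
      have hp0 : (0 : ℝ) < p := by linarith
      have e1 : (p : ℝ) ^ (-(1 + x)) = 1 / p * (p : ℝ) ^ (-x) := by
        rw [show (-(1 + x) : ℝ) = -1 + -x by ring, Real.rpow_add hp0, Real.rpow_neg_one, one_div]
      have e2 : (p : ℝ) ^ (-(1 + (x + r))) = 1 / p * (p : ℝ) ^ (-x) *
          Real.exp (-(r * Real.log p)) := by
        rw [← e1, Real.rpow_def_of_pos hp0, Real.rpow_def_of_pos hp0, ← Real.exp_add]
        congr 1
        ring
      rw [hf]
      simp only
      rw [e2, e1]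
      ring
    have hb : ∀ p, ‖gterm S A p w‖ ≤ ({p : ℕ | p.Prime}).indicator f p +
        60 * (p : ℝ) ^ (-(3 / 2) : ℝ) := by
      intro p
      by_cases hp : p ∈ S
      · have h25 := E.big p hp
        have hp1 : (1 : ℝ) ≤ p := by exact_mod_cast (show 1 ≤ p by omega)
        have hp0 : (0 : ℝ) < p := by linarith
        rw [indicator_of_mem (show p ∈ {p : ℕ | p.Prime} from E.prime p hp)]
        have h4 := E.gterm_main hp (w := w) hw.le
        rw [dl_cube (by omega)] at h4
        have hlog : 0 ≤ Real.log p := Real.log_nonneg hp1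
        have h5 : ‖(mm A p * (xp p w - xp p w ^ 2) : ℂ)‖ ≤ f p := by
          have e0 : ‖xp p w‖ ≤ 1 := by
            rw [norm_xp (by omega)]
            exact Real.rpow_le_one_of_one_le_of_nonpos hp1 (by linarith)
          have e1 : ‖1 - xp p w‖ ≤ r * Real.log p := by
            rw [xp_eq (by omega), norm_sub_rev]
            refine (norm_exp_sub_one_le_of_re ?_).trans (le_of_eq ?_)
            · have : (-(w * Real.log p)).re = -(w.re * Real.log p) := by
                rw [Complex.neg_re, Complex.re_mul_ofReal]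
              rw [this]
              have := mul_nonneg hw.le hlog
              linarith
            · rw [norm_neg, norm_mul, Complex.norm_real, Real.norm_eq_abs, abs_of_nonneg hlog]
          have e1' : ‖1 - xp p w‖ ≤ 2 := by
            refine (norm_sub_le _ _).trans ?_
            rw [norm_one]
            linarith
          have e1'' := min_le_exp (mul_nonneg hr0.le hlog) e1' e1
          have e2 : (mm A p * (xp p w - xp p w ^ 2) : ℂ) = mm A p * (xp p w * (1 - xp p w)) := by ring
          rw [e2, norm_mul, norm_mul, Complex.norm_real, Real.norm_eq_abs, norm_xp (by omega),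
            hfexp p hp1]
          calc |mm A p| * ((p : ℝ) ^ (-w.re) * ‖1 - xp p w‖) ≤
              (1 / p) * ((p : ℝ) ^ (-w.re) * (4 * (1 - Real.exp (-(r * Real.log p))))) := by
                have := E.mm_le hp
                gcongr
            _ = _ := by rw [← hx]; ring
        have h8 : ‖gterm S A p w‖ ≤ ‖gterm S A p w - mm A p * (xp p w - xp p w ^ 2)‖ +
            ‖(mm A p * (xp p w - xp p w ^ 2) : ℂ)‖ := by
          have := norm_add_le (gterm S A p w - mm A p * (xp p w - xp p w ^ 2))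
            (mm A p * (xp p w - xp p w ^ 2))
          rwa [sub_add_cancel] at this
        linarith
      · unfold gterm
        rw [if_neg hp, norm_zero]
        refine add_nonneg ?_ (by positivity)
        refine indicator_nonneg (fun q hq => ?_) p
        have hq' : q.Prime := hq
        have hq1 : (1 : ℝ) ≤ q := by exact_mod_cast hq'.one_le
        have hlq := Real.log_nonneg hq1
        rw [hfexp q hq1]
        have : Real.exp (-(r * Real.log q)) ≤ 1 := by
          apply Real.exp_le_one_iff.2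
          have := mul_nonneg hr0.le hlq
          linarith
        have : 0 ≤ 4 * (1 - Real.exp (-(r * Real.log q))) := by linarith
        positivity
    have h9 : ‖GG S A w‖ ≤ ∑' p, (({p : ℕ | p.Prime}).indicator f p +
        60 * (p : ℝ) ^ (-(3 / 2) : ℝ)) := by
      unfold GG
      exact tsum_of_norm_bounded (hf1.add hg1).hasSum hb
    rw [hf1.tsum_add hg1, hf2] at h9
    have hlog1 : Real.log (1 + r / x) = Real.log (x + r) - Real.log x := by
      rw [← Real.log_div (by positivity) hw.ne']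
      congr 1
      field_simp
    have h2 := abs_le.1 (h1 x hw (by linarith))
    have h10 : Pool.Agent.H341R2.lam x - Pool.Agent.H341R2.lam (x + r) ≤
        Real.log (1 + r / x) + 2 * C + |Real.log e₀| := by
      by_cases hxr : x + r < e₀
      · have h3 := abs_le.1 (h1 (x + r) (by positivity) hxr)
        rw [hlog1]
        linarith
      · push Not at hxr
        have h3 : 0 ≤ Pool.Agent.H341R2.lam (x + r) := by
          rw [← e6]
          exact tsum_nonneg fun p => by positivity
        have h4 : Real.log e₀ ≤ Real.log (x + r) := Real.log_le_log he₀ hxr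
        have h5 := neg_abs_le (Real.log e₀)
        rw [hlog1]
        linarith
    linarith

end Pool.Agent.TH942.RZ.GKb

namespace Pool.Agent.TH942.RZ

open Pool.Agent.TH942.SL

theorem GK_bound (a b : ℤ) : ∃ A : ℝ, ∀ s : ℂ, 0 < s.re →
    ‖GK a b s‖ ≤ A * (1 + Real.log (1 + ‖s‖ / s.re)) := by
  obtain ⟨C, hC0, hC⟩ := GKb.GG_half (Pool.Agent.W263.BSD.eData a b)
  set S1 : ℝ := ∑ p ∈ Finset.range 25, |Pool.Agent.TH942.LS.cE a b p| with hS1
  have hS10 : 0 ≤ S1 := Finset.sum_nonneg fun p _ => abs_nonneg _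
  refine ⟨C + S1 + 4, fun s hs => ?_⟩
  have h1 := hC s hs
  have h2 : ‖∑ p ∈ Finset.range 25, (Pool.Agent.TH942.LS.cE a b p : ℂ) *
      Complex.exp (-(s * Pool.Agent.TH942.LS.lm p))‖ ≤ S1 := by
    refine (norm_sum_le _ _).trans (Finset.sum_le_sum fun p _ => ?_)
    rw [norm_mul, Complex.norm_real, Real.norm_eq_abs]
    calc _ ≤ |Pool.Agent.TH942.LS.cE a b p| * 1 :=
          mul_le_mul_of_nonneg_left (exp_le_one' hs p) (abs_nonneg _)
      _ = _ := mul_one _
  have h3 : 0 ≤ Real.log (1 + ‖s‖ / s.re) := Real.log_nonneg (by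
    have : 0 ≤ ‖s‖ / s.re := by positivity
    linarith)
  have h4 : ‖GK a b s‖ ≤ C + 4 * Real.log (1 + ‖s‖ / s.re) + S1 := by
    unfold GK
    refine (norm_add_le _ _).trans (add_le_add h1 h2)
  have h5 : 0 ≤ (C + S1) * Real.log (1 + ‖s‖ / s.re) := by positivity
  linarith

end Pool.Agent.TH942.RZ
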