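import Pool.Agent.H21.L.R_seed8.TH942.RZ.Main
import Pool.Agent.H21.L.R_seed8.TH942.RZ.GKb
import Pool.Agent.H21.L.R_seed8.TH942.RZ.PSum
import Pool.Agent.H21.L.R_seed8.TH942.RZ.Growth
import Pool.Agent.H21.L.R_seed8.TH942.SL.CurveLim

/-!
# Riesz means for an elliptic curve over `ℚ`
-/

set_option autoImplicit false

namespace Pool.Agent.TH942.RZ

open MeasureTheory Filter Topology Set Classical
open Pool.Agent.W263.BSD Pool.Agent.W189.ML Pool.Agent.W187.UR
open Pool.Agent.TH942.LS (lm cE dat cont Kf Cont Dat lm_eq cE_eq cf_ne S Wt S_finite)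
open Pool.Agent.TH942.SL
open CongruenceSubgroup
open scoped MatrixGroups

variable {a b : ℤ} {F : ℂ → ℂ}

/-- the correction function is bounded for `Re s ≥ 1` -/
theorem GK_far (a b : ℤ) : ∃ A : ℝ, ∀ s : ℂ, 1 ≤ s.re → ‖GK a b s‖ ≤ A := by
  have E := eData a b
  refine ⟨(∑' p : ℕ, (2 * (p : ℝ) ^ (-1 - (1 / 2) : ℝ) + 60 * (p : ℝ) ^ (-(3 / 2) : ℝ))) +
    ∑ p ∈ Finset.range 25, |cE a b p|, fun s hs => ?_⟩
  have hs0 : 0 < s.re := by linarith
  unfold GK
  refine (norm_add_le _ _).trans (add_le_add ?_ ?_)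
  · unfold GG
    exact tsum_of_norm_bounded (summable_bound (by norm_num : (0 : ℝ) < 1 / 2)).hasSum
      fun p => E.gterm_norm (by norm_num) p (by linarith)
  · refine (norm_sum_le _ _).trans (Finset.sum_le_sum fun p _ => ?_)
    rw [norm_mul, Complex.norm_real, Real.norm_eq_abs]
    calc |cE a b p| * ‖Complex.exp (-(s * lm p))‖ ≤ |cE a b p| * 1 :=
          mul_le_mul_of_nonneg_left (exp_le_one' hs0 p) (abs_nonneg _)
      _ = _ := mul_one _

/-- the growth of the incomplete `L`-series -/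
theorem growth_newform (hΔ : 4 * a ^ 3 + 27 * b ^ 2 ≠ 0) (hF : IsLSeries a b F)
    {N : ℕ} [NeZero N] {f : CuspForm (Gamma0 N : Subgroup (GL (Fin 2) ℝ)) 2}
    (hf : TH941.Hecke f) (hb : TH941.Belongs a b f) :
    ∃ C : ℝ, ∀ s : ℂ, 0 < s.re → ‖PhiF a b F s‖ ≤ C * (1 + ‖s‖) * (1 + 1 / s.re) ^ 2 :=
  growth hΔ hF hf hb (partial_sum_bound f)

/-- **The limit of the Riesz means of an elliptic curve.** -/
theorem curve_riesz (hΔ : 4 * a ^ 3 + 27 * b ^ 2 ≠ 0) (hrs : Tendsto (rsSum a b) atTop (𝓝 0))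
    (hgr : ∃ C : ℝ, ∀ s : ℂ, 0 < s.re → ‖PhiF a b F s‖ ≤ C * (1 + ‖s‖) * (1 + 1 / s.re) ^ 2)
    (hF : IsLSeries a b F) {m : ℕ} (hm : analyticOrderAt F 1 = m)
    (hz : ∀ s : ℂ, 1 < s.re → F s ≠ 0) {k : ℝ} (hk : 0 < k) :
    ∃ κ : ℝ, Tendsto (fun T : ℝ => S lm (cE a b) (rzw k) T - m * Real.log T) atTop (𝓝 κ) ∧
      (Real.exp κ : ℂ) * (iteratedDeriv m F 1 / (m.factorial : ℂ)) =
        ((√2 * Real.exp (-(m * (deriv Real.Gamma (k + 1) / Real.Gamma (k + 1)))) : ℝ) : ℂ) := by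
  obtain ⟨C, hC⟩ := hgr
  obtain ⟨A, hA⟩ := GK_bound a b
  obtain ⟨A', hA'⟩ := GK_far a b
  obtain ⟨g, hga, hg0, hg0', hfac⟩ := factor hF hm
  set ψ : ℝ := deriv Real.Gamma (k + 1) / Real.Gamma (k + 1) with hψ
  have hne : ∀ s : ℂ, 0 < s.re → PhiF a b F s ≠ 0 := fun s hs => by
    unfold PhiF
    exact mul_ne_zero (hz _ (by simpa using hs)) (small_ne hs)
  obtain ⟨ℓ₀, h1, hlim⟩ := riesz_lim (dat a b) hk (Ψ := PhiF a b F) (G := GK a b) (g := g)
    (m := m) (κG := ((Real.log 2 / 2 : ℝ) : ℂ) + Pool.Agent.W187.S2.sig a b) (A := A) (A' := A')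
    (C := C) (fun s _ => PhiF_differentiable hF s) hne
    (fun s hs => (GK_deriv hs).differentiableAt) (fun s hs => GK_exp hF (by linarith)) hC hA hA'
    hga hg0' (Eventually.of_forall hfac) (fun ζ hζ => GK_ray hΔ hrs hζ)
  set L : ℂ := ((Real.log 2 / 2 : ℝ) : ℂ) + Pool.Agent.W187.S2.sig a b - ℓ₀ - m * (ψ : ℝ) with hL
  have h2 : Tendsto (fun T : ℝ => S lm (cE a b) (rzw k) T - m * Real.log T) atTop (𝓝 L.re) := by
    have := (Complex.continuous_re.tendsto L).comp hlim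
    refine this.congr fun y => ?_
    simp only [Function.comp_apply, Complex.sub_re, Complex.ofReal_re]
    congr 1
    rw [← Complex.ofReal_natCast, ← Complex.ofReal_mul, Complex.ofReal_re]
  have h3 : L.im = 0 := by
    have e1 : Tendsto (fun _ : ℝ => (0 : ℝ)) atTop (𝓝 L.im) := by
      have := (Complex.continuous_im.tendsto L).comp hlim
      refine this.congr fun y => ?_
      simp only [Function.comp_apply, Complex.sub_im, Complex.ofReal_im]
      rw [← Complex.ofReal_natCast, ← Complex.ofReal_mul, Complex.ofReal_im, sub_zero]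
    exact tendsto_nhds_unique e1 tendsto_const_nhds
  refine ⟨L.re, h2, ?_⟩
  have h4 : ((L.re : ℝ) : ℂ) = L := by
    apply Complex.ext
    · rw [Complex.ofReal_re]
    · rw [Complex.ofReal_im, h3]
  have hs0 : small a b 0 ≠ 0 := by
    have := small_ne_zero_real (a := a) (b := b) (w := 0) le_rfl
    simpa using this
  have h6 : Complex.exp ((Real.log 2 / 2 : ℝ) : ℂ) = ((√2 : ℝ) : ℂ) := by
    rw [← Complex.ofReal_exp]
    have h4 : Real.exp (Real.log 2 / 2) = √2 := by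
      rw [Real.sqrt_eq_rpow, Real.rpow_def_of_pos two_pos]
      congr 1; ring
    rw [h4]
  have h7 : Complex.exp L = ((√2 : ℝ) : ℂ) * small a b 0 / g 0 * Complex.exp (-(m * (ψ : ℝ))) := by
    rw [hL, sub_eq_add_neg, Complex.exp_add, Complex.exp_sub, Complex.exp_add, h6,
      Pool.Agent.W187.S2.exp_sig, h1]
  rw [Complex.ofReal_exp, h4, h7, hg0]
  have h8 : iteratedDeriv m F 1 / (m.factorial : ℂ) ≠ 0 := by
    intro h
    rw [hg0, h, zero_mul] at hg0'
    exact hg0' rfl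
  set q : ℂ := iteratedDeriv m F 1 / (m.factorial : ℂ) with hq
  push_cast
  field_simp

/-- the truncated weight -/
noncomputable def rzv (k : ℝ) : ℝ → ℝ := (Ioc (0 : ℝ) 1).indicator (rzw k)

lemma rzv_Wt {k : ℝ} (hk : 0 < k) : Wt (rzv k) 1 1 where
  meas := by
    unfold rzv rzw
    refine Measurable.indicator ?_ measurableSet_Ioc
    exact Measurable.pow_const (by fun_prop) k
  bd := fun u => by
    by_cases h : u ∈ Ioc (0 : ℝ) 1
    · unfold rzv
      rw [indicator_of_mem h]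
      unfold rzw
      have h1 : max (1 - u) 0 ≤ 1 := max_le (by linarith [h.1]) zero_le_one
      rw [abs_of_nonneg (by positivity)]
      exact Real.rpow_le_one (le_max_right _ _) h1 hk.le
    · unfold rzv
      rw [indicator_of_notMem h, abs_zero]
      exact zero_le_one
  b0 := one_pos
  supp := fun u hu => by
    unfold rzv
    exact indicator_of_notMem (fun h => not_lt.2 h.2 hu) _

lemma S_rzv {k : ℝ} (hk : 0 < k) {T : ℝ} (hT : 0 < T) :
    S lm (cE a b) (rzv k) T = S lm (cE a b) (rzw k) T := by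
  unfold S
  refine tsum_congr fun n => ?_
  have h0 : 0 < lm n / T := div_pos ((dat a b).lam0 n) hT
  by_cases h : lm n / T ≤ 1
  · unfold rzv
    rw [indicator_of_mem (show lm n / T ∈ Ioc (0 : ℝ) 1 from ⟨h0, h⟩)]
  · push Not at h
    unfold rzv
    rw [indicator_of_notMem (fun h2 => not_lt.2 h2.2 h)]
    unfold rzw
    rw [max_eq_right (by linarith), Real.zero_rpow hk.ne']

/-- the Riesz sum -/
noncomputable def rz (a b : ℤ) (k X : ℝ) : ℝ :=
  ∑ p ∈ (Finset.range (⌊X⌋₊ + 1)).filter (GoodPrime a b),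
    (1 - Real.log p / Real.log X) ^ k * Real.log (((pointCount a b p : ℝ) + 1) / p)

lemma rz_eq {k : ℝ} (hk : 0 < k) {X : ℝ} (hX : 1 < X) :
    rz a b k X = S lm (cE a b) (rzw k) (Real.log X) := by
  have hT : 0 < Real.log X := Real.log_pos hX
  rw [← S_rzv hk hT, S_finite (a := a) (b := b) (rzv k) (rzv_Wt hk) hX]
  unfold rz
  rw [Real.rpow_one]
  refine Finset.sum_congr rfl fun p hp => ?_
  obtain ⟨h1, h2⟩ := Finset.mem_filter.1 hp
  have hp1 : (1 : ℝ) < p := by exact_mod_cast h2.1.one_lt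
  have h3 : (p : ℝ) ≤ X := by
    rw [Finset.mem_range, Nat.lt_succ_iff] at h1
    exact (Nat.le_floor_iff (by linarith)).1 h1
  have h4 : Real.log p / Real.log X ≤ 1 := by
    rw [div_le_one hT]
    exact Real.log_le_log (by linarith) h3
  have h5 : 0 < Real.log p / Real.log X := div_pos (Real.log_pos hp1) hT
  unfold rzv
  rw [indicator_of_mem (show Real.log p / Real.log X ∈ Ioc (0 : ℝ) 1 from ⟨h5, h4⟩)]
  unfold rzw
  rw [max_eq_left (by linarith)]

/-- the weight does not vanish near `1` -/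
lemma rzv_top {k : ℝ} : ∀ κ, κ < (1 : ℝ) → ¬ ∀ᵐ x : ℝ, x ∈ Ioo κ 1 → rzv k x = 0 := by
  intro κ hκ h
  have h1 : volume (Ioo (max κ 0) 1) ≠ 0 := by
    rw [Real.volume_Ioo]
    have : 0 < 1 - max κ 0 := sub_pos.2 (max_lt hκ one_pos)
    exact (ENNReal.ofReal_pos.2 this).ne'
  apply h1
  rw [ae_iff] at h
  refine measure_mono_null (fun x hx => ?_) h
  have hx0 : 0 < x := (le_max_right _ _).trans_lt hx.1
  show ¬ (x ∈ Ioo κ 1 → rzv k x = 0)
  intro h2
  have h3 := h2 ⟨(le_max_left _ _).trans_lt hx.1, hx.2⟩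
  unfold rzv rzw at h3
  rw [indicator_of_mem (show x ∈ Ioc (0 : ℝ) 1 from ⟨hx0, hx.2.le⟩)] at h3
  have h4 : 0 < max (1 - x) 0 := lt_max_of_lt_left (by linarith [hx.2])
  exact (Real.rpow_pos_of_pos h4 k).ne' h3

/-- Dini's condition -/
lemma rzv_dini {k : ℝ} (hk : 0 < k) : IntegrableOn (fun u : ℝ => |rzv k u - 1| / u) (Ioo 0 1) := by
  have hb : ∀ u ∈ Ioo (0 : ℝ) 1, |rzv k u - 1| / u ≤ max k 1 := by
    intro u hu
    have h0 : 0 < u := hu.1
    have h1 : 0 < 1 - u := by linarith [hu.2]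
    unfold rzv rzw
    rw [indicator_of_mem (show u ∈ Ioc (0 : ℝ) 1 from ⟨hu.1, hu.2.le⟩), max_eq_left h1.le,
      div_le_iff₀ h0]
    have h2 : (1 - u) ^ k ≤ 1 := Real.rpow_le_one h1.le (by linarith) hk.le
    rw [abs_of_nonpos (by linarith)]
    rcases le_total 1 k with h | h
    · have h3 := one_add_mul_self_le_rpow_one_add (s := -u) (by linarith [hu.2]) h
      rw [← sub_eq_add_neg 1 u] at h3
      have h4 : k * u ≤ max k 1 * u := mul_le_mul_of_nonneg_right (le_max_left _ _) h0.le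
      linarith
    · have h3 := Real.rpow_le_rpow_of_exponent_ge h1 (by linarith) h
      rw [Real.rpow_one] at h3
      have h4 : 1 * u ≤ max k 1 * u := mul_le_mul_of_nonneg_right (le_max_right _ _) h0.le
      linarith
  have hm : Measurable fun u : ℝ => |rzv k u - 1| / u := by
    have := (rzv_Wt hk).meas
    exact ((this.sub_const 1).abs).div measurable_id
  refine Measure.integrableOn_of_bounded (M := max k 1) (by simp) hm.aestronglyMeasurable ?_
  filter_upwards [ae_restrict_mem measurableSet_Ioo] with u hu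
  rw [Real.norm_eq_abs, abs_of_nonneg (div_nonneg (abs_nonneg _) hu.1.le)]
  exact hb u hu

end Pool.Agent.TH942.RZ
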