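import Pool.Agent.H21.L.R_seed8.TH942.SL.Line

/-!
# The Riesz kernel

The inverse Laplace transform of `s ^ (-k-1)` on a vertical line is `max y 0 ^ k / Γ(k+1)`, and its
derivative in `k`. (The Laplace transform of a power at a complex argument, `Ker.g11_lap`, is copied
from `Pool/Agent/Helper890/Cov/JG11.lean`.)
-/

set_option autoImplicit false

namespace Pool.Agent.TH942.RZ.Ker

open MeasureTheory Set Filter Topology Metric

theorem g11_meas (κ : ℝ) (z : ℂ) :
    Measurable (fun t : ℝ => ((t ^ κ : ℝ) : ℂ) * Complex.exp (-(z * t))) := by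
  have h1 : Measurable (fun t : ℝ => t ^ κ) := measurable_id.pow_const κ
  have h2 : Measurable (fun t : ℝ => ((t ^ κ : ℝ) : ℂ)) := Complex.measurable_ofReal.comp h1
  have h3 : Continuous (fun t : ℝ => Complex.exp (-(z * t))) := by fun_prop
  exact h2.mul h3.measurable

theorem g11_norm (κ : ℝ) (z : ℂ) (t : ℝ) (ht : 0 < t) :
    ‖((t ^ κ : ℝ) : ℂ) * Complex.exp (-(z * t))‖ = t ^ κ * Real.exp (-z.re * t ^ (1:ℝ)) := by
  rw [norm_mul, Complex.norm_exp, Complex.norm_real, Real.norm_of_nonneg (Real.rpow_nonneg ht.le _),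
    Real.rpow_one]
  congr 2
  simp

theorem g11_int (κ : ℝ) (hκ : -1 < κ) (z : ℂ) (hz : 0 < z.re) :
    IntegrableOn (fun t : ℝ => ((t ^ κ : ℝ) : ℂ) * Complex.exp (-(z * t))) (Ioi 0) := by
  have h := integrableOn_rpow_mul_exp_neg_mul_rpow (p := 1) (s := κ) (b := z.re) hκ
    (by norm_num) hz
  refine Integrable.mono' h (g11_meas κ z).aestronglyMeasurable ?_
  filter_upwards [ae_restrict_mem measurableSet_Ioi] with t ht
  exact (g11_norm κ z t ht).le

theorem g11_deriv (κ : ℝ) (hκ : -1 < κ) (z₀ : ℂ) (hz : 0 < z₀.re) :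
    DifferentiableAt ℂ (fun z : ℂ => ∫ t in Ioi (0 : ℝ), ((t ^ κ : ℝ) : ℂ) * Complex.exp (-(z * t)))
      z₀ := by
  have hs : {z : ℂ | z₀.re / 2 < z.re} ∈ 𝓝 z₀ := by
    apply (isOpen_lt continuous_const Complex.continuous_re).mem_nhds
    show z₀.re / 2 < z₀.re
    linarith
  have key := hasDerivAt_integral_of_dominated_loc_of_deriv_le (μ := volume.restrict (Ioi (0:ℝ)))
    (𝕜 := ℂ) (E := ℂ) (x₀ := z₀)
    (F := fun (z : ℂ) (t : ℝ) => ((t ^ κ : ℝ) : ℂ) * Complex.exp (-(z * t)))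
    (bound := fun t : ℝ => t ^ (κ + 1) * Real.exp (-(z₀.re/2) * t ^ (1:ℝ))) hs
    (Eventually.of_forall (fun z => (g11_meas κ z).aestronglyMeasurable))
    (g11_int κ hκ z₀ hz)
    (F' := fun (z : ℂ) (t : ℝ) => ((t ^ κ : ℝ) : ℂ) * (Complex.exp (-(z * t)) * (-(t:ℂ))))
    (by
      have h : Measurable (fun t : ℝ => (((t ^ κ : ℝ) : ℂ) * Complex.exp (-(z₀ * t))) * (-(t:ℂ))) :=
        (g11_meas κ z₀).mul (Complex.measurable_ofReal.neg)
      have h2 : (fun t : ℝ => (((t ^ κ : ℝ) : ℂ) * Complex.exp (-(z₀ * t))) * (-(t:ℂ))) =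
          (fun t : ℝ => ((t ^ κ : ℝ) : ℂ) * (Complex.exp (-(z₀ * t)) * (-(t:ℂ)))) := by
        funext t
        ring
      rw [h2] at h
      exact h.aestronglyMeasurable)
    (by
      filter_upwards [ae_restrict_mem measurableSet_Ioi] with t ht z hzz
      have ht' : (0:ℝ) < t := ht
      have hzz' : z₀.re / 2 < z.re := hzz
      rw [← mul_assoc, norm_mul, g11_norm κ z t ht', norm_neg, Complex.norm_real,
        Real.norm_of_nonneg ht'.le, Real.rpow_add ht', Real.rpow_one]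
      have h1 : Real.exp (-z.re * t) ≤ Real.exp (-(z₀.re/2) * t) := by
        apply Real.exp_le_exp.mpr
        nlinarith
      have h2 : 0 ≤ t ^ κ := Real.rpow_nonneg ht'.le _
      calc t ^ κ * Real.exp (-z.re * t) * t = (t ^ κ * t) * Real.exp (-z.re * t) := by ring
        _ ≤ (t ^ κ * t) * Real.exp (-(z₀.re/2) * t) := by
          apply mul_le_mul_of_nonneg_left h1
          positivity)
    (integrableOn_rpow_mul_exp_neg_mul_rpow (p := 1) (s := κ + 1) (b := z₀.re / 2) (by linarith)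
      (by norm_num) (by linarith))
    (by
      refine Eventually.of_forall (fun t z _ => ?_)
      apply HasDerivAt.const_mul
      have h1 : HasDerivAt (fun x : ℂ => -(x * t)) (-(t:ℂ)) z := by
        have h0 := ((hasDerivAt_id z).mul_const (t:ℂ)).neg
        rw [one_mul] at h0
        exact h0
      exact h1.cexp)
  exact key.2.differentiableAt

/-- Laplace transform of a power, complex parameter -/
theorem g11_lap (κ : ℝ) (hκ : -1 < κ) (z : ℂ) (hz : 0 < z.re) :
    IntegrableOn (fun t : ℝ => ((t ^ κ : ℝ) : ℂ) * Complex.exp (-(z * t))) (Ioi 0) ∧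
    ∫ t in Ioi (0 : ℝ), ((t ^ κ : ℝ) : ℂ) * Complex.exp (-(z * t)) =
      (Real.Gamma (κ + 1) : ℂ) * z ^ (-((κ + 1 : ℝ) : ℂ)) := by
  refine ⟨g11_int κ hκ z hz, ?_⟩
  have hopen : IsOpen {w : ℂ | 0 < w.re} := isOpen_lt continuous_const Complex.continuous_re
  have hf : AnalyticOnNhd ℂ (fun z : ℂ => ∫ t in Ioi (0 : ℝ), ((t ^ κ : ℝ) : ℂ) *
      Complex.exp (-(z * t))) {w : ℂ | 0 < w.re} := by
    apply DifferentiableOn.analyticOnNhd _ hopen
    intro w hw
    exact (g11_deriv κ hκ w hw).differentiableWithinAt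
  have hg : AnalyticOnNhd ℂ (fun z : ℂ => (Real.Gamma (κ + 1) : ℂ) * z ^ (-((κ + 1 : ℝ) : ℂ)))
      {w : ℂ | 0 < w.re} := by
    apply DifferentiableOn.analyticOnNhd _ hopen
    intro w hw
    apply DifferentiableAt.differentiableWithinAt
    apply DifferentiableAt.const_mul
    apply DifferentiableAt.cpow_const differentiableAt_id
    left
    exact hw
  have hconv : Convex ℝ {w : ℂ | 0 < w.re} := by
    have := (convex_Ioi (0:ℝ)).is_linear_preimage (f := fun w : ℂ => w.re)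
      Complex.reLm.isLinear
    exact this
  have h1 : (1:ℂ) ∈ {w : ℂ | 0 < w.re} := by simp
  -- agreement at positive reals
  have hreal : ∀ r : ℝ, 0 < r → (∫ t in Ioi (0 : ℝ), ((t ^ κ : ℝ) : ℂ) *
      Complex.exp (-((r:ℂ) * t))) = (Real.Gamma (κ + 1) : ℂ) * (r:ℂ) ^ (-((κ + 1 : ℝ) : ℂ)) := by
    intro r hr
    have h := Complex.integral_cpow_mul_exp_neg_mul_Ioi (a := ((κ + 1 : ℝ) : ℂ)) (r := r)
      (by rw [Complex.ofReal_re]; linarith) hr
    have h2 : (∫ t in Ioi (0 : ℝ), ((t ^ κ : ℝ) : ℂ) * Complex.exp (-((r:ℂ) * t)))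
        = ∫ (t : ℝ) in Ioi 0, (t:ℂ) ^ (((κ + 1 : ℝ) : ℂ) - 1) * Complex.exp (-(r * t)) := by
      apply setIntegral_congr_fun measurableSet_Ioi
      intro t ht
      have ht' : (0:ℝ) < t := ht
      simp only
      congr 1
      rw [Complex.ofReal_cpow ht'.le]
      congr 1
      push_cast
      ring
    rw [h2, h, Complex.Gamma_ofReal, mul_comm]
    congr 1
    rw [one_div, Complex.cpow_neg, Complex.inv_cpow]
    rw [Complex.arg_ofReal_of_nonneg hr.le]
    exact Real.pi_pos.ne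
  have hfreq : ∃ᶠ w in 𝓝[≠] (1:ℂ), (∫ t in Ioi (0 : ℝ), ((t ^ κ : ℝ) : ℂ) *
      Complex.exp (-(w * t))) = (Real.Gamma (κ + 1) : ℂ) * w ^ (-((κ + 1 : ℝ) : ℂ)) := by
    have htend : Tendsto (fun n : ℕ => (((1 + 1 / ((n:ℝ) + 1) : ℝ)) : ℂ)) atTop (𝓝[≠] (1:ℂ)) := by
      apply tendsto_nhdsWithin_of_tendsto_nhds_of_eventually_within
      · have h := tendsto_one_div_add_atTop_nhds_zero_nat (𝕜 := ℝ)
        have h' : Tendsto (fun n : ℕ => 1 + 1 / ((n:ℝ) + 1)) atTop (𝓝 (1 + 0)) := h.const_add 1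
        rw [add_zero] at h'
        have h'' := (Complex.continuous_ofReal.tendsto (1:ℝ)).comp h'
        rw [Complex.ofReal_one] at h''
        exact h''
      · refine Eventually.of_forall (fun n => ?_)
        rw [mem_compl_iff, mem_singleton_iff]
        intro hcon
        have h1 : (1 + 1 / ((n:ℝ) + 1) : ℝ) = 1 := by exact_mod_cast hcon
        have h2 : (0:ℝ) < 1 / ((n:ℝ) + 1) := by positivity
        linarith
    apply htend.frequently
    refine Frequently.of_forall (fun n => ?_)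
    apply hreal
    positivity
  exact AnalyticOnNhd.eqOn_of_preconnected_of_frequently_eq hf hg hconv.isPreconnected h1 hfreq hz

open Pool.Agent.TH942.SL in
/-- a vertical line is far from zero -/
theorem line_norm {c : ℝ} (hc : 0 < c) (s : ℂ) (hs : s.re = c) :
    min c 1 / 2 * (1 + |s.im|) ≤ ‖s‖ := by
  have h1 : |s.re| ≤ ‖s‖ := Complex.abs_re_le_norm s
  have h2 : |s.im| ≤ ‖s‖ := Complex.abs_im_le_norm s
  rw [hs, abs_of_pos hc] at h1
  have h3 : min c 1 ≤ c := min_le_left _ _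
  have h4 : min c 1 ≤ 1 := min_le_right _ _
  have h5 : 0 < min c 1 := lt_min hc one_pos
  have h6 := abs_nonneg s.im
  nlinarith

/-- bound of a negative power on a vertical line -/
theorem pow_bound {a c : ℝ} (ha : 0 < a) (hc : 0 < c) (s : ℂ) (hs : s.re = c) :
    ‖s‖ ^ (-a) ≤ (min c 1 / 2) ^ (-a) * (1 + |s.im|) ^ (-a) := by
  have h5 : 0 < min c 1 := lt_min hc one_pos
  have h6 := abs_nonneg s.im
  rw [← Real.mul_rpow (by positivity) (by positivity)]
  exact Real.rpow_le_rpow_of_nonpos (by positivity) (line_norm hc s hs) (by linarith)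

theorem cont_pow (a : ℂ) (s : ℂ) (hs : 0 < s.re) : ContinuousAt (fun s : ℂ => s ^ a) s := by
  refine continuousAt_cpow_const ?_
  left
  exact hs

end Pool.Agent.TH942.RZ.Ker

namespace Pool.Agent.TH942.RZ

open Pool.Agent.TH942.SL Complex MeasureTheory Set Filter Topology

theorem V_riesz {k c : ℝ} (hk : 0 < k) (hc : 0 < c) (y : ℝ) :
    V c (fun s => exp (s * y) * s ^ (-((k : ℂ) + 1))) =
      (((max y 0) ^ k / Real.Gamma (k + 1) : ℝ) : ℂ) := by
  have hpi := Real.pi_pos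
  have hG : (Real.Gamma (k + 1) : ℂ) ≠ 0 := by
    exact_mod_cast (Real.Gamma_pos_of_pos (by linarith)).ne'
  set f : ℝ → ℂ := fun x => (((max x 0) ^ k * Real.exp (-(c * x)) : ℝ) : ℂ) with hf
  have hfc : Continuous f := by
    rw [hf]
    refine continuous_ofReal.comp (Continuous.mul ?_ (by fun_prop))
    exact (continuous_id.max continuous_const).rpow_const fun x => Or.inr hk.le
  have hf0 : ∀ x ∈ Iic (0 : ℝ), f x = 0 := fun x hx => by
    rw [hf]
    simp only
    rw [max_eq_right hx, Real.zero_rpow hk.ne']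
    simp
  have hfpos : ∀ x : ℝ, 0 < x → f x = ((x ^ k : ℝ) : ℂ) * exp (-((c : ℂ) * x)) := by
    intro x hx
    rw [hf]
    simp only
    rw [max_eq_left hx.le]
    push_cast
    rfl
  have hfi0 : IntegrableOn f (Ioi 0) :=
    (Ker.g11_int k (by linarith) c (by simpa using hc)).congr_fun
      (fun x hx => (hfpos x hx).symm) measurableSet_Ioi
  have hfi : Integrable f := by
    rw [← integrableOn_univ, ← Iic_union_Ioi (a := (0 : ℝ))]
    refine IntegrableOn.union ?_ hfi0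
    exact (integrableOn_zero).congr_fun (fun x hx => (hf0 x hx).symm) measurableSet_Iic
  -- the transform
  have hF : ∀ ξ : ℝ, FourierTransform.fourier f ξ = (Real.Gamma (k + 1) : ℂ) *
      ((c : ℂ) + ((2 * Real.pi * ξ : ℝ) : ℂ) * I) ^ (-((k : ℂ) + 1)) := by
    intro ξ
    rw [Real.fourier_eq']
    set r : ℂ := (c : ℂ) + ((2 * Real.pi * ξ : ℝ) : ℂ) * I with hr
    have hr0 : 0 < r.re := by rw [hr]; simpa using hc
    have h1 := (Ker.g11_lap k (by linarith) r hr0).2
    have h2 : ∫ v : ℝ, exp ((-2 * Real.pi * inner ℝ v ξ : ℝ) * I) • f v =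
        ∫ v in Ioi (0 : ℝ), exp ((-2 * Real.pi * inner ℝ v ξ : ℝ) * I) • f v := by
      symm
      refine setIntegral_eq_integral_of_forall_compl_eq_zero fun x hx => ?_
      rw [hf0 x (by simpa using hx), smul_zero]
    have e0 : (-((k + 1 : ℝ) : ℂ)) = -((k : ℂ) + 1) := by push_cast; ring
    rw [e0] at h1
    rw [h2, ← h1]
    refine setIntegral_congr_fun measurableSet_Ioi fun v hv => ?_
    have hv0 : (0 : ℝ) < v := hv
    rw [hfpos v hv0, smul_eq_mul, mul_comm (exp _), mul_assoc, ← Complex.exp_add]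
    congr 2
    simp only [RCLike.inner_apply, conj_trivial, hr]
    push_cast
    ring
  have hinv : Integrable (fun t : ℝ => ((c : ℂ) + (t : ℂ) * I) ^ (-((k : ℂ) + 1))) := by
    refine line_int (H := fun s => s ^ (-((k : ℂ) + 1))) (a := c) (p := k + 1)
      (B := (min c 1 / 2) ^ (-(k + 1))) (by linarith)
      (fun s hs => Ker.cont_pow _ s (by rw [hs]; exact hc)) fun s hs => ?_
    have e0 : (-((k : ℂ) + 1)) = ((-(k + 1) : ℝ) : ℂ) := by push_cast; ring
    rw [e0, Complex.norm_cpow_real]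
    exact Ker.pow_bound (by linarith) hc s hs
  have hFi : Integrable (FourierTransform.fourier f) := by
    have h1 := (hinv.comp_mul_left' (R := 2 * Real.pi) (by positivity)).const_mul
      (Real.Gamma (k + 1) : ℂ)
    refine h1.congr (ae_of_all _ fun ξ => ?_)
    rw [hF]
  have h1 := hfi.fourierInv_fourier_eq hFi (v := y) hfc.continuousAt
  rw [Real.fourierInv_eq'] at h1
  simp only [hF] at h1
  have h2 := Measure.integral_comp_mul_left (fun t : ℝ => exp (((t * y : ℝ) : ℂ) * I) *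
    ((c : ℂ) + (t : ℂ) * I) ^ (-((k : ℂ) + 1))) (2 * Real.pi)
  have e1 : ∀ ξ : ℝ, exp ((2 * Real.pi * inner ℝ ξ y : ℝ) * I) • ((Real.Gamma (k + 1) : ℂ) *
      ((c : ℂ) + ((2 * Real.pi * ξ : ℝ) : ℂ) * I) ^ (-((k : ℂ) + 1))) =
      (Real.Gamma (k + 1) : ℂ) * (exp (((2 * Real.pi * ξ * y : ℝ) : ℂ) * I) *
        ((c : ℂ) + ((2 * Real.pi * ξ : ℝ) : ℂ) * I) ^ (-((k : ℂ) + 1))) := by
    intro ξ
    have e2 : (2 * Real.pi * inner ℝ ξ y : ℝ) = 2 * Real.pi * ξ * y := by
      simp only [RCLike.inner_apply, conj_trivial]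
      ring
    rw [smul_eq_mul, e2]
    ring
  simp only [e1] at h1
  rw [integral_const_mul, h2, abs_of_pos (by positivity), Complex.real_smul] at h1
  unfold V
  have e2 : ∀ t : ℝ, exp (((c : ℂ) + (t : ℂ) * I) * y) *
      ((c : ℂ) + (t : ℂ) * I) ^ (-((k : ℂ) + 1)) =
      exp (c * y) * (exp (((t * y : ℝ) : ℂ) * I) *
        ((c : ℂ) + (t : ℂ) * I) ^ (-((k : ℂ) + 1))) := by
    intro t
    rw [← mul_assoc, ← Complex.exp_add]
    congr 2
    push_cast
    ring
  simp only [e2]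
  rw [integral_const_mul]
  set Q : ℂ := ∫ t : ℝ, exp (((t * y : ℝ) : ℂ) * I) *
    ((c : ℂ) + (t : ℂ) * I) ^ (-((k : ℂ) + 1)) with hQ
  have hfy : f y = (((max y 0) ^ k : ℝ) : ℂ) * exp (-(c * y)) := by
    rw [hf]
    push_cast
    rfl
  rw [hfy] at h1
  have e3 : exp ((c : ℂ) * y) * exp (-((c : ℂ) * y)) = 1 := by
    rw [← Complex.exp_add]
    simp
  have e4 : (((max y 0) ^ k / Real.Gamma (k + 1) : ℝ) : ℂ) =
      (((max y 0) ^ k : ℝ) : ℂ) / (Real.Gamma (k + 1) : ℂ) := by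
    push_cast
    rfl
  rw [e4, eq_div_iff hG]
  calc _ = exp (c * y) * ((Real.Gamma (k + 1) : ℂ) * ((((2 * Real.pi)⁻¹ : ℝ) : ℂ) * Q)) := by
        ring
    _ = (exp ((c : ℂ) * y) * exp (-((c : ℂ) * y))) * (((max y 0) ^ k : ℝ) : ℂ) := by
        rw [h1]
        ring
    _ = _ := by rw [e3, one_mul]

theorem V_riesz_log {k : ℝ} (hk : 0 < k) :
    V 1 (fun s => log s * (exp s * s ^ (-((k : ℂ) + 1)))) =
      ((deriv Real.Gamma (k + 1) / Real.Gamma (k + 1) ^ 2 : ℝ) : ℂ) := by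
  have hpi := Real.pi_pos
  set z : ℝ → ℂ := fun t => ((1 : ℝ) : ℂ) + (t : ℂ) * I with hz
  have hzre : ∀ t, (z t).re = 1 := fun t => by rw [hz]; simp
  have hz0 : ∀ t, z t ≠ 0 := fun t h => by
    have := hzre t
    rw [h] at this
    simp at this
  have hzn : ∀ t, 1 ≤ ‖z t‖ := fun t => by
    have h1 : |(z t).re| ≤ ‖z t‖ := Complex.abs_re_le_norm _
    rw [hzre, abs_one] at h1
    exact h1
  have hzc : Continuous z := by rw [hz]; fun_prop
  have hzim : ∀ t, (z t).im = t := fun t => by rw [hz]; simp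
  -- the functions
  set F : ℝ → ℝ → ℂ := fun a t => exp (z t) * (z t) ^ (-(a : ℂ)) with hF
  set F' : ℝ → ℝ → ℂ := fun a t => -(log (z t) * (exp (z t) * (z t) ^ (-(a : ℂ)))) with hF'
  have hpc : ∀ a : ℂ, Continuous fun t => (z t) ^ a := by
    intro a
    rw [continuous_iff_continuousAt]
    intro t
    exact ContinuousAt.comp (f := z) (Ker.cont_pow a (z t) (by rw [hzre]; exact one_pos))
      hzc.continuousAt
  have hFc : ∀ a : ℝ, Continuous (F a) := fun a =>
    (Complex.continuous_exp.comp hzc).mul (hpc _)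
  have hlc : Continuous fun t => log (z t) := by
    rw [continuous_iff_continuousAt]
    intro t
    refine ContinuousAt.clog hzc.continuousAt ?_
    left
    rw [hzre]
    exact one_pos
  have hF'c : ∀ a : ℝ, Continuous (F' a) := fun a => (hlc.mul (hFc a)).neg
  have hen : ∀ t, ‖exp (z t)‖ = Real.exp 1 := fun t => by
    rw [Complex.norm_exp, hzre]
  have hpn : ∀ (a t : ℝ), ‖(z t) ^ (-(a : ℂ))‖ = ‖z t‖ ^ (-a) := fun a t => by
    have e0 : (-(a : ℂ)) = ((-a : ℝ) : ℂ) := by push_cast; ring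
    rw [e0, Complex.norm_cpow_real]
  have hpb : ∀ (a t : ℝ), 0 < a → ‖z t‖ ^ (-a) ≤ (min 1 1 / 2) ^ (-a) * (1 + |t|) ^ (-a) := by
    intro a t ha
    have := Ker.pow_bound ha one_pos (z t) (hzre t)
    rwa [hzim] at this
  have hFint : ∀ a : ℝ, 1 < a → Integrable (F a) := by
    intro a ha
    refine ((decay_int ha).const_mul (Real.exp 1 * (min 1 1 / 2) ^ (-a))).mono'
      (hFc a).aestronglyMeasurable (Eventually.of_forall fun t => ?_)
    rw [hF]
    simp only
    rw [norm_mul, hen, hpn, mul_assoc]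
    exact mul_le_mul_of_nonneg_left (hpb a t (by linarith)) (Real.exp_pos 1).le
  -- the bound of the derivative
  set C : ℝ := (4 / k + Real.pi) * Real.exp 1 * (min 1 1 / 2) ^ (-(1 + k / 4)) with hC
  have hbound : ∀ t a : ℝ, a ∈ Metric.ball (k + 1) (k / 2) →
      ‖F' a t‖ ≤ C * (1 + |t|) ^ (-(1 + k / 4)) := by
    intro t a ha
    rw [Metric.mem_ball, Real.dist_eq, abs_lt] at ha
    have ha1 : 1 + k / 2 ≤ a := by linarith [ha.1]
    have hn := hzn t
    have hn0 : 0 < ‖z t‖ := by linarith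
    have e1 : ‖log (z t)‖ ≤ (4 / k + Real.pi) * ‖z t‖ ^ (k / 4) := by
      have h1 : ‖log (z t)‖ ≤ Real.log ‖z t‖ + Real.pi := by
        rw [Complex.log]
        refine (norm_add_le _ _).trans ?_
        rw [norm_mul, Complex.norm_I, mul_one, Complex.norm_real, Complex.norm_real,
          Real.norm_eq_abs, Real.norm_eq_abs, abs_of_nonneg (Real.log_nonneg hn)]
        gcongr
        exact Complex.abs_arg_le_pi _
      have h2 := Real.log_le_rpow_div hn0.le (by positivity : (0 : ℝ) < k / 4)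
      have h3 : 1 ≤ ‖z t‖ ^ (k / 4) := Real.one_le_rpow hn (by positivity)
      have h4 : ‖z t‖ ^ (k / 4) / (k / 4) = 4 / k * ‖z t‖ ^ (k / 4) := by
        field_simp
      rw [h4] at h2
      nlinarith
    have e2 : ‖z t‖ ^ (-a) ≤ ‖z t‖ ^ (-(1 + k / 2)) :=
      Real.rpow_le_rpow_of_exponent_le hn (by linarith)
    have e3 : ‖z t‖ ^ (k / 4) * ‖z t‖ ^ (-(1 + k / 2)) = ‖z t‖ ^ (-(1 + k / 4)) := by
      rw [← Real.rpow_add hn0]
      congr 1
      ring
    rw [hF']
    simp only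
    rw [norm_neg, norm_mul, norm_mul, hen, hpn]
    have hk4 : 0 < 4 / k + Real.pi := by positivity
    calc ‖log (z t)‖ * (Real.exp 1 * ‖z t‖ ^ (-a))
        ≤ ((4 / k + Real.pi) * ‖z t‖ ^ (k / 4)) * (Real.exp 1 * ‖z t‖ ^ (-(1 + k / 2))) := by
          gcongr
      _ = (4 / k + Real.pi) * Real.exp 1 * (‖z t‖ ^ (k / 4) * ‖z t‖ ^ (-(1 + k / 2))) := by ring
      _ = (4 / k + Real.pi) * Real.exp 1 * ‖z t‖ ^ (-(1 + k / 4)) := by rw [e3]
      _ ≤ (4 / k + Real.pi) * Real.exp 1 *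
          ((min 1 1 / 2) ^ (-(1 + k / 4)) * (1 + |t|) ^ (-(1 + k / 4))) := by
          have := hpb (1 + k / 4) t (by positivity)
          gcongr
      _ = _ := by rw [hC]; ring
  have hdiff : ∀ t a : ℝ, HasDerivAt (fun a => F a t) (F' a t) a := by
    intro t a
    have h1 : HasDerivAt (fun a : ℝ => -(a : ℂ)) (-1) a :=
      ((hasDerivAt_id a).ofReal_comp).fun_neg
    have h0 : HasDerivAt (fun w : ℂ => (z t) ^ w) ((z t) ^ (-(a : ℂ)) * log (z t) * 1) (-(a : ℂ)) :=
      (hasDerivAt_id (-(a : ℂ))).const_cpow (Or.inl (hz0 t))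
    have h2 := (h0.comp a h1).const_mul (exp (z t))
    refine h2.congr_deriv ?_
    rw [hF']
    ring
  have hmain := hasDerivAt_integral_of_dominated_loc_of_deriv_le (μ := (volume : Measure ℝ))
    (F := F) (F' := F') (x₀ := k + 1) (s := Metric.ball (k + 1) (k / 2))
    (bound := fun t => C * (1 + |t|) ^ (-(1 + k / 4)))
    (Metric.ball_mem_nhds _ (by positivity))
    (Eventually.of_forall fun a => (hFc a).aestronglyMeasurable)
    (hFint (k + 1) (by linarith)) (hF'c (k + 1)).aestronglyMeasurable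
    (ae_of_all _ fun t a ha => hbound t a ha)
    ((decay_int (by linarith)).const_mul C)
    (ae_of_all _ fun t a _ => hdiff t a)
  -- the values
  have hval : ∀ a : ℝ, 1 < a → (((2 * Real.pi)⁻¹ : ℝ) : ℂ) * ∫ t, F a t =
      (((Real.Gamma a)⁻¹ : ℝ) : ℂ) := by
    intro a ha
    have h1 := V_riesz (k := a - 1) (c := 1) (by linarith) one_pos 1
    unfold V at h1
    have e0 : (-(((a - 1 : ℝ) : ℂ) + 1)) = -(a : ℂ) := by push_cast; ring
    have e1 : (max (1 : ℝ) 0) ^ (a - 1) / Real.Gamma (a - 1 + 1) = (Real.Gamma a)⁻¹ := by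
      rw [max_eq_left zero_le_one, Real.one_rpow, sub_add_cancel, one_div]
    rw [e1, e0] at h1
    rw [← h1]
    congr 2
    funext t
    rw [hF]
    simp only [hz, Complex.ofReal_one, mul_one]
  have hd1 : HasDerivAt (fun a : ℝ => (((2 * Real.pi)⁻¹ : ℝ) : ℂ) * ∫ t, F a t)
      ((((2 * Real.pi)⁻¹ : ℝ) : ℂ) * ∫ t, F' (k + 1) t) (k + 1) := hmain.2.const_mul _
  have hGd : HasDerivAt Real.Gamma (deriv Real.Gamma (k + 1)) (k + 1) := by
    refine (Real.differentiableAt_Gamma fun m hm => ?_).hasDerivAt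
    have : (0 : ℝ) ≤ m := Nat.cast_nonneg m
    linarith
  have hGp : 0 < Real.Gamma (k + 1) := Real.Gamma_pos_of_pos (by linarith)
  have hd2 : HasDerivAt (fun a : ℝ => (((Real.Gamma a)⁻¹ : ℝ) : ℂ))
      ((-deriv Real.Gamma (k + 1) / Real.Gamma (k + 1) ^ 2 : ℝ) : ℂ) (k + 1) :=
    (hGd.fun_inv hGp.ne').ofReal_comp
  have hd3 : HasDerivAt (fun a : ℝ => (((2 * Real.pi)⁻¹ : ℝ) : ℂ) * ∫ t, F a t)
      ((-deriv Real.Gamma (k + 1) / Real.Gamma (k + 1) ^ 2 : ℝ) : ℂ) (k + 1) := by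
    refine hd2.congr_of_eventuallyEq ?_
    filter_upwards [lt_mem_nhds (show (1 : ℝ) < k + 1 by linarith)] with a ha
    exact hval a ha
  have huniq := hd1.unique hd3
  have hlast : V 1 (fun s => log s * (exp s * s ^ (-((k : ℂ) + 1)))) =
      -((((2 * Real.pi)⁻¹ : ℝ) : ℂ) * ∫ t, F' (k + 1) t) := by
    unfold V
    rw [← mul_neg, ← integral_neg]
    congr 2
    funext t
    rw [hF']
    simp only [neg_neg, hz]
    push_cast
    rfl
  rw [hlast, huniq]
  push_cast
  ring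

end Pool.Agent.TH942.RZ
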