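import Pool.Agent.H21.L.R_seed8.TH942.RZ.Lim

/-!
# The limit theorem for Riesz means
-/

set_option autoImplicit false

open MeasureTheory Filter Topology Set Complex
open Pool.Agent.TH942.LS (Dat S)
open Pool.Agent.TH942.SL

namespace Pool.Agent.TH942.RZ

variable {lam c : ℕ → ℝ} {δ σ : ℝ} {Ψ G g L : ℂ → ℂ} {m : ℕ} {κG : ℂ} {A A' C r₀ k : ℝ}

lemma ray_zero (ζ : ℂ) : Tendsto (fun T : ℝ => ζ / (T : ℂ)) atTop (𝓝 0) := by
  rw [tendsto_zero_iff_norm_tendsto_zero]
  have e1 : Tendsto (fun y : ℝ => ‖ζ‖ / y) atTop (𝓝 0) := tendsto_const_nhds.div_atTop tendsto_id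
  refine e1.congr' ?_
  filter_upwards [eventually_gt_atTop 0] with y hy
  rw [norm_div, Complex.norm_real, Real.norm_eq_abs, abs_of_pos hy]

/-- the logarithm satisfies the one-sided bounds -/
theorem exists_LD (D : Dat lam c δ σ)
    (hΨ : ∀ s : ℂ, 0 < s.re → DifferentiableAt ℂ Ψ s) (hne : ∀ s : ℂ, 0 < s.re → Ψ s ≠ 0)
    (hG : ∀ s : ℂ, 0 < s.re → DifferentiableAt ℂ G s)
    (hexp : ∀ s : ℂ, σ < s.re → exp (G s - DD lam c s) = Ψ s)
    (hgrow : ∀ s : ℂ, 0 < s.re → ‖Ψ s‖ ≤ C * (1 + ‖s‖) * (1 + 1 / s.re) ^ 2)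
    (hGf : ∀ s : ℂ, 1 ≤ s.re → ‖G s‖ ≤ A') :
    ∃ (L : ℂ → ℂ) (A₀ : ℝ), LD L A₀ (σ + 1) ∧
      (∀ s : ℂ, 0 < s.re → HasDerivAt L (deriv Ψ s / Ψ s) s) ∧
      (∀ s : ℂ, 0 < s.re → exp (L s) = Ψ s) ∧ ∀ s : ℂ, σ < s.re → L s = G s - DD lam c s := by
  have hσ := D.σ0
  obtain ⟨L, h1, h2, h3⟩ := exists_Lam D hσ hΨ hne hG hexp
  set S₀ : ℝ := ∑' n, |c n| * Real.exp (-(σ * lam n)) with hS₀
  have hS0 : 0 ≤ S₀ := tsum_nonneg fun n => by positivity
  set lc : ℝ := Real.log (|C| + 1) with hlc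
  have hlc0 : 0 ≤ lc := Real.log_nonneg (by linarith [abs_nonneg C])
  set ls : ℝ := Real.log (σ + 2) with hls
  have hls0 : 0 ≤ ls := Real.log_nonneg (by linarith)
  set A₀ : ℝ := |A'| + S₀ + lc + ls + 2 with hA₀
  have hA0 : 0 < A₀ := by
    have := abs_nonneg A'
    linarith
  have hfar : ∀ s : ℂ, σ + 1 ≤ s.re → ‖L s‖ ≤ A₀ := by
    intro s hs
    rw [h3 s (by linarith)]
    have e1 := norm_sub_le (G s) (DD lam c s)
    have e2 := (hGf s (by linarith)).trans (le_abs_self A')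
    have e3 := dd_le D (s := s) (by linarith)
    have e4 : Real.exp (-(δ * (s.re - σ))) ≤ 1 := by
      apply Real.exp_le_one_iff.2
      have := mul_nonneg D.δ0.le (by linarith : 0 ≤ s.re - σ)
      linarith
    have e5 : ‖DD lam c s‖ ≤ S₀ := e3.trans (by
      calc S₀ * Real.exp (-(δ * (s.re - σ))) ≤ S₀ * 1 := mul_le_mul_of_nonneg_left e4 hS0
        _ = S₀ := mul_one _)
    linarith
  refine ⟨L, A₀, ⟨hA0, by linarith, fun s hs => (h1 s hs).differentiableAt, fun s hs => ?_, hfar⟩,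
    h1, h2, h3⟩
  have l1 : 0 ≤ Real.log (1 + |s.im|) := log1_nonneg (abs_nonneg _)
  have l2 : 0 ≤ Real.log (1 + 1 / s.re) := log1_nonneg (by positivity)
  by_cases hc : σ + 1 ≤ s.re
  · have e1 := (Complex.re_le_norm (L s)).trans (hfar s hc)
    have e2 : 0 ≤ A₀ * (Real.log (1 + |s.im|) + Real.log (1 + 1 / s.re)) := by positivity
    nlinarith
  · push Not at hc
    have hΨ0 : 0 < ‖Ψ s‖ := norm_pos_iff.2 (hne s hs)
    have e1 : (L s).re = Real.log ‖Ψ s‖ := by
      rw [← h2 s hs, Complex.norm_exp, Real.log_exp]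
    have e2 : ‖Ψ s‖ ≤ (|C| + 1) * ((σ + 2) * (1 + |s.im|)) * (1 + 1 / s.re) ^ 2 := by
      refine (hgrow s hs).trans ?_
      have e3 : 1 + ‖s‖ ≤ (σ + 2) * (1 + |s.im|) := by
        have e4 := Complex.norm_le_abs_re_add_abs_im s
        rw [abs_of_pos hs] at e4
        have := abs_nonneg s.im
        nlinarith
      have e5 : C ≤ |C| + 1 := by linarith [le_abs_self C]
      have e6 : 0 ≤ 1 + ‖s‖ := by positivity
      have e7 : C * (1 + ‖s‖) ≤ (|C| + 1) * ((σ + 2) * (1 + |s.im|)) :=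
        mul_le_mul e5 e3 e6 (by positivity)
      exact mul_le_mul_of_nonneg_right e7 (by positivity)
    rw [e1]
    have hne1 : (|C| + 1 : ℝ) ≠ 0 := by positivity
    have hne2 : (σ + 2 : ℝ) ≠ 0 := by positivity
    have hne3 : (1 + |s.im| : ℝ) ≠ 0 := by positivity
    have hne4 : (1 + 1 / s.re : ℝ) ≠ 0 := by positivity
    have e3 := Real.log_le_log hΨ0 e2
    rw [Real.log_mul (by positivity) (by positivity), Real.log_mul hne1 (by positivity),
      Real.log_mul hne2 hne3, Real.log_pow] at e3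
    have e4 : lc + (ls + Real.log (1 + |s.im|)) + ((2 : ℕ) : ℝ) * Real.log (1 + 1 / s.re) ≤
        A₀ * (1 + Real.log (1 + |s.im|) + Real.log (1 + 1 / s.re)) := by
      have e5 : lc + ls + 2 ≤ A₀ := by
        have := abs_nonneg A'
        linarith
      have e6 : 2 ≤ A₀ := by linarith
      have e7 : Real.log (1 + |s.im|) ≤ A₀ * Real.log (1 + |s.im|) := by nlinarith
      have e8 : 2 * Real.log (1 + 1 / s.re) ≤ A₀ * Real.log (1 + 1 / s.re) := by nlinarith
      push_cast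
      nlinarith
    linarith

/-- **The limit theorem for Riesz means of every order `k > 0`.** -/
theorem riesz_lim (D : Dat lam c δ σ) (hk : 0 < k)
    (hΨ : ∀ s : ℂ, 0 < s.re → DifferentiableAt ℂ Ψ s) (hne : ∀ s : ℂ, 0 < s.re → Ψ s ≠ 0)
    (hG : ∀ s : ℂ, 0 < s.re → DifferentiableAt ℂ G s)
    (hexp : ∀ s : ℂ, σ < s.re → exp (G s - DD lam c s) = Ψ s)
    (hgrow : ∀ s : ℂ, 0 < s.re → ‖Ψ s‖ ≤ C * (1 + ‖s‖) * (1 + 1 / s.re) ^ 2)
    (hGb : ∀ s : ℂ, 0 < s.re → ‖G s‖ ≤ A * (1 + Real.log (1 + ‖s‖ / s.re)))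
    (hGf : ∀ s : ℂ, 1 ≤ s.re → ‖G s‖ ≤ A')
    (hg : AnalyticAt ℂ g 0) (hg0 : g 0 ≠ 0) (hΨg : ∀ᶠ s in 𝓝 (0 : ℂ), Ψ s = s ^ m * g s)
    (hray : ∀ ζ : ℂ, 0 < ζ.re → Tendsto (fun T : ℝ => G (ζ / T)) atTop (𝓝 κG)) :
    ∃ ℓ₀ : ℂ, exp ℓ₀ = g 0 ∧
      Tendsto (fun T : ℝ => (S lam c (rzw k) T : ℂ) - m * Real.log T) atTop
        (𝓝 (κG - ℓ₀ - m * (deriv Real.Gamma (k + 1) / Real.Gamma (k + 1) : ℝ))) := by
  have hσ := D.σ0
  have hΓ : 0 < Real.Gamma (k + 1) := Real.Gamma_pos_of_pos (by linarith)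
  obtain ⟨L, A₀, hLD, h1, h2, h3⟩ := exists_LD D hΨ hne hG hexp hgrow hGf
  obtain ⟨r, Γ, hr, hΓc, hΓ0, hLn⟩ := log_near h2 h1 hg hg0 hΨg
  set ℓ₀ : ℂ := Γ 0 with hℓ₀
  have hΓat : ContinuousAt Γ 0 := hΓc.continuousAt (Metric.ball_mem_nhds 0 hr)
  refine ⟨ℓ₀, hΓ0, ?_⟩
  -- a smaller radius
  obtain ⟨r', hr', hr'b⟩ : ∃ r' : ℝ, 0 < r' ∧ ∀ s : ℂ, ‖s‖ < r' → ‖s‖ < r ∧ ‖Γ s - ℓ₀‖ ≤ 1 := by
    obtain ⟨ε, hε, hb⟩ := Metric.continuousAt_iff.1 hΓat 1 one_pos
    refine ⟨min ε r, lt_min hε hr, fun s hs => ⟨hs.trans_le (min_le_right _ _), ?_⟩⟩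
    have := hb (x := s) (by rw [dist_zero_right]; exact hs.trans_le (min_le_left _ _))
    rw [Complex.dist_eq] at this
    exact this.le
  have hnear : ∀ s : ℂ, 0 < s.re → ‖s‖ < r' → ‖L s - m * log s - ℓ₀‖ ≤ 1 := by
    intro s hs hsr
    obtain ⟨e1, e2⟩ := hr'b s hsr
    rw [hLn s hs e1]
    have : (m : ℂ) * log s + Γ s - m * log s - ℓ₀ = Γ s - ℓ₀ := by ring
    rw [this]
    exact e2
  have hlim : ∀ t : ℝ, Tendsto (fun T : ℝ => L (zz t / T) - m * log (zz t / T) - ℓ₀) atTop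
      (𝓝 0) := by
    intro t
    have e1 := ray_zero (zz t)
    have e2 := (hΓat.tendsto.comp e1).sub_const ℓ₀
    rw [sub_self] at e2
    refine e2.congr' ?_
    have e3 : ∀ᶠ T : ℝ in atTop, ‖zz t / (T : ℂ)‖ < r := by
      have := e1.norm
      rw [norm_zero] at this
      exact this.eventually (gt_mem_nhds hr)
    filter_upwards [e3, eventually_gt_atTop 0] with T e4 hT
    have hre : 0 < (zz t / (T : ℂ)).re := by
      rw [zz_div_re t hT]; positivity
    simp only [Function.comp_apply]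
    rw [hLn _ hre e4]
    ring
  have hfar := far_small (m := m) hLD hk hr' hnear hlim
  -- the function `E`
  set E : ℂ → ℂ := fun s => G s - L s with hE
  have hEd : ∀ s : ℂ, 0 < s.re → DifferentiableAt ℂ E s := fun s hs =>
    (hG s hs).sub (h1 s hs).differentiableAt
  have hEq : ∀ s : ℂ, σ < s.re → E s = DD lam c s := fun s hs => by
    rw [hE]
    simp only
    rw [h3 s hs]
    ring
  have hEb : ∀ x : ℝ, 0 < x → ∃ B : ℝ, 0 ≤ B ∧ ∀ s : ℂ, x ≤ s.re → s.re ≤ σ + 1 →
      ‖E s‖ ≤ B * (1 + |s.im|) ^ (k / 2) := by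
    intro x hx
    obtain ⟨B, hB, hBB⟩ := hLD.pow hx (ε := k / 2) (by positivity)
    have l3 : 0 ≤ Real.log (1 + (σ + 1) / x) := log1_nonneg (by positivity)
    refine ⟨|A| * ((1 + Real.log (1 + (σ + 1) / x)) * (1 + 1 / (k / 2))) + B, by positivity,
      fun s hs hs2 => ?_⟩
    have hs0 : 0 < s.re := hx.trans_le hs
    have l1 : 0 ≤ Real.log (1 + |s.im|) := log1_nonneg (abs_nonneg _)
    have e1 : Real.log (1 + ‖s‖ / s.re) ≤ Real.log (1 + (σ + 1) / x) + Real.log (1 + |s.im|) := by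
      rw [← Real.log_mul (by positivity) (by positivity)]
      apply Real.log_le_log (by positivity)
      have e2 : ‖s‖ ≤ (σ + 1) * (1 + |s.im|) := by
        have e4 := Complex.norm_le_abs_re_add_abs_im s
        rw [abs_of_pos hs0] at e4
        have := abs_nonneg s.im
        nlinarith
      have e3 : ‖s‖ / s.re ≤ (σ + 1) / x * (1 + |s.im|) := by
        rw [div_mul_eq_mul_div]
        exact div_le_div₀ (by positivity) e2 hx hs
      have := abs_nonneg s.im
      nlinarith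
    have e4 := one_add_log_le (ε := k / 2) (by positivity) (abs_nonneg s.im)
    have e5 : ‖G s‖ ≤ |A| * ((1 + Real.log (1 + (σ + 1) / x)) * (1 + 1 / (k / 2))) *
        (1 + |s.im|) ^ (k / 2) := by
      have e6 : 0 ≤ 1 + Real.log (1 + ‖s‖ / s.re) := by
        have := log1_nonneg (x := ‖s‖ / s.re) (by positivity)
        linarith
      calc ‖G s‖ ≤ A * (1 + Real.log (1 + ‖s‖ / s.re)) := hGb s hs0
        _ ≤ |A| * (1 + Real.log (1 + ‖s‖ / s.re)) :=
            mul_le_mul_of_nonneg_right (le_abs_self A) e6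
        _ ≤ |A| * ((1 + Real.log (1 + (σ + 1) / x)) * (1 + Real.log (1 + |s.im|))) := by
            apply mul_le_mul_of_nonneg_left _ (abs_nonneg A)
            nlinarith
        _ ≤ |A| * ((1 + Real.log (1 + (σ + 1) / x)) * ((1 + 1 / (k / 2)) *
            (1 + |s.im|) ^ (k / 2))) := by gcongr
        _ = _ := by ring
    have e7 := hBB s hs
    have e8 := norm_sub_le (G s) (L s)
    rw [add_mul]
    exact e8.trans (add_le_add e5 e7)
  -- the three constants
  have hW1 : V 1 (fun z => exp z * ks k z) = ((1 / Real.Gamma (k + 1) : ℝ) : ℂ) := by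
    have e1 := V_riesz (k := k) (c := 1) hk one_pos 1
    rw [max_eq_left zero_le_one, Real.one_rpow] at e1
    rw [← e1]
    unfold V ks
    simp only [Complex.ofReal_one, mul_one]
  have hW2 : V 1 (fun z => log z * (exp z * ks k z)) =
      ((deriv Real.Gamma (k + 1) / Real.Gamma (k + 1) ^ 2 : ℝ) : ℂ) := V_riesz_log hk
  have hVW : ∀ H : ℂ → ℂ, V 1 H = ((2 * Real.pi)⁻¹ : ℝ) * ∫ t : ℝ, H (zz t) := fun H => rfl
  have iW : Integrable fun t => (1 : ℂ) * Wk k t := int_of_ll' hk (f := fun _ => (1 : ℂ))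
    continuous_const (B := 1) fun t => by
      rw [norm_one, one_mul]
      exact ll_one t
  have iW' : Integrable (Wk k) := by
    refine iW.congr (ae_of_all _ fun t => ?_)
    simp
  have hlogc : Continuous fun t : ℝ => log (zz t) :=
    Continuous.clog zz_cont fun t => slit (by rw [zz_re]; exact one_pos)
  have hlogb : ∀ t : ℝ, ‖log (zz t)‖ ≤ (1 + Real.pi) * ll t := by
    intro t
    have e4 : ‖log (zz t)‖ ≤ |Real.log ‖zz t‖| + |arg (zz t)| := by
      have := norm_le_abs_re_add_abs_im (log (zz t))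
      rwa [Complex.log_re, Complex.log_im] at this
    have e5 := Complex.abs_arg_le_pi (zz t)
    have e6 : |Real.log ‖zz t‖| ≤ ll t := by
      rw [abs_of_nonneg (Real.log_nonneg (zz_one t))]
      unfold ll
      have := Real.log_le_log (zz_pos t) (show ‖zz t‖ ≤ 1 + ‖zz t‖ by linarith)
      linarith
    have := ll_one t
    have := Real.pi_pos
    nlinarith
  have iLg : Integrable fun t => log (zz t) * Wk k t := int_of_ll' hk hlogc hlogb
  -- the part of `G`
  have hGc : ∀ T : ℝ, 0 < T → Continuous fun t : ℝ => G (zz t / T) := by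
    intro T hT
    have e1 : Continuous fun t : ℝ => G (((1 / T : ℝ) : ℂ) + t * I) :=
      line_cont fun s hs => (hG s (by rw [hs]; positivity)).continuousAt
    have h2 : (fun t : ℝ => G (zz t / T)) = (fun t : ℝ => G (((1 / T : ℝ) : ℂ) + t * I)) ∘
        fun t => T⁻¹ * t := by
      funext t
      simp only [Function.comp_apply]
      rw [zz_div t hT]
    rw [h2]
    exact e1.comp (by fun_prop)
  have hGl : ∀ T : ℝ, 0 < T → ∀ t : ℝ, ‖G (zz t / T)‖ ≤ |A| * ll t := by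
    intro T hT t
    have hre := zz_div_re t hT
    have e1 := hGb (zz t / T) (by rw [hre]; positivity)
    have e2 : ‖zz t / (T : ℂ)‖ / (zz t / (T : ℂ)).re = ‖zz t‖ := by
      rw [hre, norm_div, Complex.norm_real, Real.norm_eq_abs, abs_of_pos hT]
      field_simp
    rw [e2] at e1
    have e3 : 0 ≤ 1 + Real.log (1 + ‖zz t‖) := by
      have := log1_nonneg (norm_nonneg (zz t))
      linarith
    exact e1.trans (mul_le_mul_of_nonneg_right (le_abs_self A) e3)
  have nG : Tendsto (fun T : ℝ => ∫ t : ℝ, G (zz t / T) * Wk k t) atTop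
      (𝓝 (∫ t : ℝ, κG * Wk k t)) := by
    refine tendsto_integral_filter_of_dominated_convergence
      (fun t => |A| * Real.exp 1 * ll t * wl k t) ?_ ?_ ?_ (ae_of_all _ fun t => ?_)
    · filter_upwards [eventually_gt_atTop 0] with T hT
      exact ((hGc T hT).mul (Wk_cont k)).aestronglyMeasurable
    · filter_upwards [eventually_gt_atTop 0] with T hT
      refine ae_of_all _ fun t => ?_
      rw [norm_mul, norm_Wk]
      have e1 := hGl T hT t
      have e2 := wl_nonneg k t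
      calc _ ≤ (|A| * ll t) * (Real.exp 1 * wl k t) := by gcongr
        _ = _ := by ring
    · refine int_of_ll hk (B := |A| * Real.exp 1) ?_ fun t => ?_
      · exact ((continuous_const.mul ll_cont).mul (wl_cont k)).aestronglyMeasurable
      · have e1 := ll_one t
        have e2 := wl_nonneg k t
        rw [abs_of_nonneg (by positivity)]
    · exact (hray (zz t) (by rw [zz_re]; exact one_pos)).mul_const _
  rw [integral_const_mul] at nG
  -- assembly
  have hL2 : ∀ T : ℝ, 0 < T → Continuous fun t : ℝ => L (zz t / T) - m * log (zz t / T) - ℓ₀ := by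
    intro T hT
    have e1 := hLD.lcont (x := 1 / T) (by positivity)
    have e2 : (fun t : ℝ => L (zz t / T)) = (fun t : ℝ => L (((1 / T : ℝ) : ℂ) + t * I)) ∘
        fun t => T⁻¹ * t := by
      funext t
      simp only [Function.comp_apply]
      rw [zz_div t hT]
    have e3 : Continuous fun t : ℝ => L (zz t / T) := by
      rw [e2]
      exact e1.comp (by fun_prop)
    have e4 : Continuous fun t : ℝ => log (zz t / T) := by
      refine Continuous.clog (zz_cont.div_const _) fun t => slit ?_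
      rw [zz_div_re t hT]
      positivity
    exact (e3.sub (continuous_const.mul e4)).sub continuous_const
  have iL2 : ∀ T : ℝ, 1 ≤ T → Integrable fun t : ℝ =>
      (L (zz t / T) - m * log (zz t / T) - ℓ₀) * Wk k t := by
    intro T hT
    have hT0 : 0 < T := by linarith
    obtain ⟨B, hB, hBB⟩ := hLD.pow (x₀ := 1 / T) (by positivity) (ε := k / 2) (by positivity)
    have hT0' : |Real.log T| = Real.log T := abs_of_nonneg (Real.log_nonneg hT)
    have hlT : 0 ≤ Real.log T := Real.log_nonneg hT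
    -- bound by `B' (1 + |t|)^(k/2)`
    set B' : ℝ := B + m * ((1 + Real.pi) * (2 + 1 / (k / 2)) + Real.log T) + ‖ℓ₀‖ with hB'
    have hpi := Real.pi_pos
    have hB'0 : 0 ≤ B' := by positivity
    have hbd : ∀ t : ℝ, ‖L (zz t / T) - m * log (zz t / T) - ℓ₀‖ ≤ B' * (1 + |t|) ^ (k / 2) := by
      intro t
      have hp : 1 ≤ (1 + |t|) ^ (k / 2) :=
        Real.one_le_rpow (by linarith [abs_nonneg t]) (by positivity)
      have e1 : ‖L (zz t / T)‖ ≤ B * (1 + |t|) ^ (k / 2) := by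
        refine (hBB _ (by rw [zz_div_re t hT0])).trans ?_
        rw [zz_div_im]
        apply mul_le_mul_of_nonneg_left _ hB
        apply Real.rpow_le_rpow (by positivity) _ (by positivity)
        rw [abs_div, abs_of_pos hT0]
        have := div_le_self (abs_nonneg t) hT
        linarith
      have e2 : log (zz t / T) = log (zz t) - Real.log T := by
        have e3 : zz t / (T : ℂ) = ((T⁻¹ : ℝ) : ℂ) * zz t := by
          have : (T : ℂ) ≠ 0 := by exact_mod_cast hT0.ne'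
          push_cast
          field_simp
        rw [e3, Complex.log_ofReal_mul (by positivity) (zz_ne t), Real.log_inv]
        push_cast
        ring
      have e4 : ‖log (zz t / T)‖ ≤ ((1 + Real.pi) * (2 + 1 / (k / 2)) + Real.log T) *
          (1 + |t|) ^ (k / 2) := by
        rw [e2]
        refine (norm_sub_le _ _).trans ?_
        rw [Complex.norm_real, Real.norm_eq_abs, hT0']
        have e5 := hlogb t
        have e6 := ll_le hk t
        have e7 : Real.log T ≤ Real.log T * (1 + |t|) ^ (k / 2) := by nlinarith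
        calc ‖log (zz t)‖ + Real.log T ≤ (1 + Real.pi) * ((2 + 1 / (k / 2)) * (1 + |t|) ^ (k / 2)) +
              Real.log T * (1 + |t|) ^ (k / 2) := by
              refine add_le_add (e5.trans ?_) e7
              exact mul_le_mul_of_nonneg_left e6 (by positivity)
          _ = _ := by ring
      have e8 := norm_sub_le (L (zz t / T) - m * log (zz t / T)) ℓ₀
      have e9 := norm_sub_le (L (zz t / T)) (m * log (zz t / T))
      rw [norm_mul, Complex.norm_natCast] at e9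
      have e10 : (m : ℝ) * ‖log (zz t / T)‖ ≤ m * (((1 + Real.pi) * (2 + 1 / (k / 2)) +
          Real.log T) * (1 + |t|) ^ (k / 2)) := mul_le_mul_of_nonneg_left e4 (Nat.cast_nonneg _)
      have e11 : ‖ℓ₀‖ ≤ ‖ℓ₀‖ * (1 + |t|) ^ (k / 2) := by
        have := norm_nonneg ℓ₀
        nlinarith
      rw [hB']
      calc _ ≤ B * (1 + |t|) ^ (k / 2) + m * (((1 + Real.pi) * (2 + 1 / (k / 2)) +
          Real.log T) * (1 + |t|) ^ (k / 2)) + ‖ℓ₀‖ * (1 + |t|) ^ (k / 2) := by linarith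
        _ = _ := by ring
    refine ((decay_int (p := 1 + k / 2) (by linarith)).const_mul
      (B' * (Real.exp 1 * 2 ^ (k + 1)))).mono' ((hL2 T hT0).mul (Wk_cont k)).aestronglyMeasurable
      (ae_of_all _ fun t => ?_)
    have h0 : 0 < 1 + |t| := by positivity
    rw [norm_mul, norm_Wk]
    have e1 := hbd t
    have e2 := wl_le hk t
    have e3 := wl_nonneg k t
    calc _ ≤ (B' * (1 + |t|) ^ (k / 2)) * (Real.exp 1 * (2 ^ (k + 1) *
          (1 + |t|) ^ (-(k + 1)))) := by gcongr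
      _ = B' * (Real.exp 1 * 2 ^ (k + 1)) * ((1 + |t|) ^ (k / 2) * (1 + |t|) ^ (-(k + 1))) := by
          ring
      _ = _ := by
          rw [← Real.rpow_add h0]
          congr 2
          ring
  have iG : ∀ T : ℝ, 0 < T → Integrable fun t : ℝ => G (zz t / T) * Wk k t := fun T hT =>
    int_of_ll' hk (hGc T hT) (hGl T hT)
  -- the identity
  have hid : ∀ T : ℝ, 1 ≤ T → 1 / T ≤ σ + 1 →
      (S lam c (rzw k) T : ℂ) - m * Real.log T =
      Real.Gamma (k + 1) * (((2 * Real.pi)⁻¹ : ℝ) * (∫ t : ℝ, G (zz t / T) * Wk k t) -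
        ((2 * Real.pi)⁻¹ : ℝ) * (∫ t : ℝ, (L (zz t / T) - m * log (zz t / T) - ℓ₀) * Wk k t)) -
        ℓ₀ - m * (deriv Real.Gamma (k + 1) / Real.Gamma (k + 1) : ℝ) := by
    intro T hT hT1
    have hT0 : 0 < T := by linarith
    rw [rep D hk hEd hEq hEb hT0 hT1, hVW]
    have e0 : ∀ t : ℝ, E (zz t / T) * (exp (zz t) * ks k (zz t)) =
        (G (zz t / T) * Wk k t - (L (zz t / T) - m * log (zz t / T) - ℓ₀) * Wk k t) -
          ((ℓ₀ - m * Real.log T) * Wk k t + m * (log (zz t) * Wk k t)) := by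
      intro t
      have e2 : log (zz t / T) = log (zz t) - Real.log T := by
        have e3 : zz t / (T : ℂ) = ((T⁻¹ : ℝ) : ℂ) * zz t := by
          have : (T : ℂ) ≠ 0 := by exact_mod_cast hT0.ne'
          push_cast
          field_simp
        rw [e3, Complex.log_ofReal_mul (by positivity) (zz_ne t), Real.log_inv]
        push_cast
        ring
      rw [e2, hE]
      unfold Wk
      simp only
      ring
    simp only [e0]
    have i1 : Integrable fun t : ℝ => G (zz t / T) * Wk k t -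
        (L (zz t / T) - m * log (zz t / T) - ℓ₀) * Wk k t := (iG T hT0).sub (iL2 T hT)
    have i2 : Integrable fun t : ℝ => (ℓ₀ - m * Real.log T) * Wk k t +
        m * (log (zz t) * Wk k t) := (iW'.const_mul _).add (iLg.const_mul _)
    rw [integral_sub i1 i2, integral_sub (iG T hT0) (iL2 T hT),
      integral_add (iW'.const_mul _) (iLg.const_mul _), integral_const_mul, integral_const_mul]
    rw [hVW] at hW1 hW2
    have w1 : ((2 * Real.pi)⁻¹ : ℝ) * (∫ t : ℝ, Wk k t) = ((1 / Real.Gamma (k + 1) : ℝ) : ℂ) := hW1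
    have w2 : ((2 * Real.pi)⁻¹ : ℝ) * (∫ t : ℝ, log (zz t) * Wk k t) =
      ((deriv Real.Gamma (k + 1) / Real.Gamma (k + 1) ^ 2 : ℝ) : ℂ) := hW2
    have hΓc : ((Real.Gamma (k + 1) : ℝ) : ℂ) ≠ 0 := by exact_mod_cast hΓ.ne'
    have w1' : (Real.Gamma (k + 1) : ℂ) * (((2 * Real.pi)⁻¹ : ℝ) * (∫ t : ℝ, Wk k t)) = 1 := by
      rw [w1]
      push_cast
      field_simp
    have w2' : (Real.Gamma (k + 1) : ℂ) * (((2 * Real.pi)⁻¹ : ℝ) *
        (∫ t : ℝ, log (zz t) * Wk k t)) =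
        ((deriv Real.Gamma (k + 1) / Real.Gamma (k + 1) : ℝ) : ℂ) := by
      rw [w2]
      push_cast
      field_simp
    linear_combination (-(ℓ₀ - m * Real.log T)) * w1' - (m : ℂ) * w2'
  -- the limit
  have hlim2 : Tendsto (fun T : ℝ => (Real.Gamma (k + 1) : ℂ) * (((2 * Real.pi)⁻¹ : ℝ) *
      (∫ t : ℝ, G (zz t / T) * Wk k t) - ((2 * Real.pi)⁻¹ : ℝ) *
        (∫ t : ℝ, (L (zz t / T) - m * log (zz t / T) - ℓ₀) * Wk k t)) -
        ℓ₀ - m * (deriv Real.Gamma (k + 1) / Real.Gamma (k + 1) : ℝ)) atTop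
      (𝓝 ((Real.Gamma (k + 1) : ℂ) * (((2 * Real.pi)⁻¹ : ℝ) * (κG * ∫ t : ℝ, Wk k t) -
        ((2 * Real.pi)⁻¹ : ℝ) * 0) - ℓ₀ -
          m * (deriv Real.Gamma (k + 1) / Real.Gamma (k + 1) : ℝ))) :=
    ((((nG.const_mul _).sub (hfar.const_mul _)).const_mul _).sub_const _).sub_const _
  have hval : (Real.Gamma (k + 1) : ℂ) * (((2 * Real.pi)⁻¹ : ℝ) * (κG * ∫ t : ℝ, Wk k t) -
        ((2 * Real.pi)⁻¹ : ℝ) * 0) - ℓ₀ -
          m * (deriv Real.Gamma (k + 1) / Real.Gamma (k + 1) : ℝ) =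
      κG - ℓ₀ - m * (deriv Real.Gamma (k + 1) / Real.Gamma (k + 1) : ℝ) := by
    rw [hVW] at hW1
    have w1 : ((2 * Real.pi)⁻¹ : ℝ) * (∫ t : ℝ, Wk k t) = ((1 / Real.Gamma (k + 1) : ℝ) : ℂ) := hW1
    have hΓc : ((Real.Gamma (k + 1) : ℝ) : ℂ) ≠ 0 := by exact_mod_cast hΓ.ne'
    have w1' : (Real.Gamma (k + 1) : ℂ) * (((2 * Real.pi)⁻¹ : ℝ) * (∫ t : ℝ, Wk k t)) = 1 := by
      rw [w1]
      push_cast
      field_simp
    linear_combination κG * w1'
  rw [hval] at hlim2
  refine hlim2.congr' ?_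
  have hev : ∀ᶠ T : ℝ in atTop, 1 / T ≤ σ + 1 := by
    filter_upwards [eventually_ge_atTop 1] with T hT
    have : 1 / T ≤ 1 := by rw [div_le_one (by linarith)]; exact hT
    linarith
  filter_upwards [hev, eventually_ge_atTop 1] with T hT1 hT
  exact (hid T hT hT1).symm

end Pool.Agent.TH942.RZ
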